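import Pool.Agent.Lib_helper94.QS.Ineq

/-!
# The two inequalities
-/

set_option autoImplicit false

namespace Pool.Agent.Lib_helper94.QS

open Real MeasureTheory intervalIntegral Set Filter Topology

noncomputable section

namespace Setup

variable {L : ℝ} {f f1 f2 : ℝ → ℝ} {n : ℝ → E3 → ℝ}

/-- The conclusion of the calibration on `[a, b]`. -/
def Mst (L : ℝ) (n : ℝ → E3 → ℝ) (f f1 f2 : ℝ → ℝ) (m a b : ℝ) : Prop :=
  ∀ c : ℝ, 0 ≤ c → ∀ W : ℝ → ℝ, IntervalIntegrable W volume a b →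
    (∀ s : ℝ, (s = 1 ∨ s = -1) → ∀ r ∈ Ioo 0 L,
      W r ≤ SI (fun θ φ => sin θ * dTh n f f1 f2 m c s r θ φ)) →
    ∫ r in a..b, W r ≤ 4 * π * (4 / 3 / m + 2 * GG m c m)

theorem thmV (S : Setup L f f1 f2 n) (hp : ∀ r ∈ Ioo 0 L, ∀ θ φ, |pp n f1 r θ φ| ≤ 1)
    {m a b : ℝ} (hm : 0 < m) (hM : Mst L n f f1 f2 m a b) (hfm : ∀ r ∈ Ioo 0 L, f r ≤ m)
    (i2 : IntervalIntegrable (fun r => SI (s2 n f f1 f2 r)) volume a b)
    (i0 : IntervalIntegrable (fun r => SI (vl n f r)) volume a b) :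
    (∫ r in a..b, SI (s2 n f f1 f2 r)) + 1 / (4 * m ^ 4) * (∫ r in a..b, SI (vl n f r))
      ≤ 2 * π ^ 2 / m := by
  rw [← intervalIntegral.integral_const_mul, ← intervalIntegral.integral_add i2
    (i0.const_mul _)]
  have h := hM 0 le_rfl _ (i2.add (i0.const_mul (1 / (4 * m ^ 4)))) ?_
  · refine h.trans (le_of_eq ?_)
    rw [GG_top hm]
    field_simp
    ring
  · intro s hs r hr
    have c1 : Ct fun θ φ => sin θ * rad n f f1 f2 r θ φ := ((cn_sin L).mul S.cn_rad).ct hr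
    have c2 : Ct fun θ φ => 1 / (4 * m ^ 4) * vl n f r θ φ :=
      Continuous.mul continuous_const (S.cn_vl.ct hr)
    have c3 : Ct fun θ φ => sin θ * dTh n f f1 f2 m 0 s r θ φ :=
      ((cn_sin L).mul (S.cn_dTh hm 0 s)).ct hr
    have e : SI (fun θ φ => sin θ * rad n f f1 f2 r θ φ) + 1 / (4 * m ^ 4) * SI (vl n f r)
        = SI fun θ φ => sin θ * rad n f f1 f2 r θ φ + 1 / (4 * m ^ 4) * vl n f r θ φ := by
      rw [SI_add c1 c2, SI_const_mul]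
    have h1 := S.SI_s2_le hr
    have h2 : SI (fun θ φ => sin θ * rad n f f1 f2 r θ φ + 1 / (4 * m ^ 4) * vl n f r θ φ)
        ≤ SI fun θ φ => sin θ * dTh n f f1 f2 m 0 s r θ φ := by
      refine SI_mono (Continuous.add c1 c2) c3 fun θ hθ φ => ?_
      have hsn := sin_nonneg_of_mem_Icc hθ
      have := mul_le_mul_of_nonneg_left (S.ptV hm hs hr (hfm r hr) (hp r hr θ φ)) hsn
      rw [vl]
      calc _ = sin θ * (rad n f f1 f2 r θ φ + 1 / (4 * m ^ 4) * (Nf n r θ φ * f r ^ 2)) := by ring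
        _ ≤ _ := this
    show SI (s2 n f f1 f2 r) + 1 / (4 * m ^ 4) * SI (vl n f r) ≤ _
    linarith

theorem thmY (S : Setup L f f1 f2 n) (hp : ∀ r ∈ Ioo 0 L, ∀ θ φ, |pp n f1 r θ φ| ≤ 1)
    {m a b : ℝ} (hm : 0 < m) (hM : Mst L n f f1 f2 m a b) (hfm : ∀ r ∈ Ioo 0 L, f r ≤ m)
    (i2 : IntervalIntegrable (fun r => SI (s2 n f f1 f2 r)) volume a b)
    (i1 : IntervalIntegrable (fun r => SI (s1 n f f1 f2 r)) volume a b) :
    (∫ r in a..b, SI (s2 n f f1 f2 r))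
      + 1 / (2 * m ^ 2) * (∫ r in a..b, SI (s1 n f f1 f2 r)) ≤ 3 * π ^ 2 / m := by
  rw [← intervalIntegral.integral_const_mul, ← intervalIntegral.integral_add i2
    (i1.const_mul _)]
  have h := hM (1 / (2 * m ^ 2)) (by positivity) _ (i2.add (i1.const_mul (1 / (2 * m ^ 2)))) ?_
  · refine h.trans (le_of_eq ?_)
    rw [GG_top hm]
    field_simp
    ring
  · intro s hs r hr
    have c1 : Ct fun θ φ => sin θ * rad n f f1 f2 r θ φ := ((cn_sin L).mul S.cn_rad).ct hr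
    have c2' : Ct fun θ φ => sin θ * (1 / 2 * (1 - pp n f1 r θ φ ^ 2) * Nf n r θ φ
      - f r * pq n f1 f2 r θ φ) :=
      ((cn_sin L).mul ((((Cn.const L (1 / 2)).mul S.cn_one).mul S.cn_Nf).sub
        (S.cn_f.mul S.cn_pq))).ct hr
    have c2 : Ct fun θ φ => 1 / (2 * m ^ 2) * (sin θ * (1 / 2 * (1 - pp n f1 r θ φ ^ 2)
      * Nf n r θ φ - f r * pq n f1 f2 r θ φ)) :=
      Continuous.mul continuous_const c2'
    have c3 : Ct fun θ φ => sin θ * dTh n f f1 f2 m (1 / (2 * m ^ 2)) s r θ φ :=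
      ((cn_sin L).mul (S.cn_dTh hm _ s)).ct hr
    have e : SI (fun θ φ => sin θ * rad n f f1 f2 r θ φ) + 1 / (2 * m ^ 2) * SI (s1 n f f1 f2 r)
        = SI fun θ φ => sin θ * rad n f f1 f2 r θ φ + 1 / (2 * m ^ 2) * (sin θ * (1 / 2
          * (1 - pp n f1 r θ φ ^ 2) * Nf n r θ φ - f r * pq n f1 f2 r θ φ)) := by
      rw [SI_add c1 c2, SI_const_mul, S.SI_s1 hr]
    have h1 := S.SI_s2_le hr
    have h2 : SI (fun θ φ => sin θ * rad n f f1 f2 r θ φ + 1 / (2 * m ^ 2) * (sin θ * (1 / 2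
          * (1 - pp n f1 r θ φ ^ 2) * Nf n r θ φ - f r * pq n f1 f2 r θ φ)))
        ≤ SI fun θ φ => sin θ * dTh n f f1 f2 m (1 / (2 * m ^ 2)) s r θ φ := by
      refine SI_mono (Continuous.add c1 c2) c3 fun θ hθ φ => ?_
      have hsn := sin_nonneg_of_mem_Icc hθ
      have := mul_le_mul_of_nonneg_left (S.ptY hm hs hr (hfm r hr) (hp r hr θ φ)) hsn
      calc _ = sin θ * (rad n f f1 f2 r θ φ + 1 / (2 * m ^ 2) * (1 / 2
            * (1 - pp n f1 r θ φ ^ 2) * Nf n r θ φ - f r * pq n f1 f2 r θ φ)) := by ring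
        _ ≤ _ := this
    show SI (s2 n f f1 f2 r) + 1 / (2 * m ^ 2) * SI (s1 n f f1 f2 r) ≤ _
    linarith

theorem int_nonneg {a b : ℝ} (hab : a ≤ b) {W : ℝ → ℝ} (H : ∀ r ∈ Ioo a b, 0 ≤ W r) :
    0 ≤ ∫ r in a..b, W r := by
  rw [intervalIntegral.integral_of_le hab, integral_Ioc_eq_integral_Ioo]
  exact setIntegral_nonneg measurableSet_Ioo H

theorem SI_vl_nonneg (S : Setup L f f1 f2 n) {r : ℝ} (hr : r ∈ Ioo 0 L) : 0 ≤ SI (vl n f r) := by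
  refine SI_nonneg fun θ hθ φ => ?_
  have h1 := S.fpos r hr
  have h2 := S.npos' hr θ φ
  have h3 := sin_nonneg_of_mem_Icc hθ
  unfold vl
  positivity

/-- The inequality for the volume. -/
theorem amgmV {V J m : ℝ} (hm : 0 < m) (hV : 0 ≤ V) (h : J + 1 / (4 * m ^ 4) * V ≤ 2 * π ^ 2 / m) :
    V ^ (1 / 3 : ℝ) * J ≤ 3 / 4 * (2 * π ^ 2) ^ (4 / 3 : ℝ) := by
  set t := V ^ (1 / 3 : ℝ) with ht
  have ht0 : 0 ≤ t := rpow_nonneg hV _
  have ht3 : t ^ 3 = V := by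
    rw [ht, ← rpow_mul_natCast hV]
    norm_num
  set a := (2 * π ^ 2) ^ (1 / 3 : ℝ) with ha
  have ha0 : 0 ≤ a := by positivity
  have ha3 : a ^ 3 = 2 * π ^ 2 := by
    rw [ha, ← rpow_mul_natCast (by positivity)]
    norm_num
  have ha4 : (2 * π ^ 2) ^ (4 / 3 : ℝ) = a ^ 4 := by
    rw [ha, ← rpow_mul_natCast (by positivity)]
    norm_num
  rw [ha4]
  have h1 : J ≤ a ^ 3 / m - 1 / (4 * m ^ 4) * t ^ 3 := by
    rw [ha3, ht3]
    linarith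
  have h2 : t * J ≤ t * (a ^ 3 / m - 1 / (4 * m ^ 4) * t ^ 3) := mul_le_mul_of_nonneg_left h1 ht0
  set x := t / m with hx
  have hx0 : 0 ≤ x := by positivity
  have h3 : t * (a ^ 3 / m - 1 / (4 * m ^ 4) * t ^ 3) = a ^ 3 * x - x ^ 4 / 4 := by
    rw [hx]
    field_simp
  have h4 : 0 ≤ (a - x) ^ 2 * (3 * a ^ 2 + 2 * a * x + x ^ 2) := by positivity
  nlinarith

theorem amgmY {Y J m : ℝ} (hm : 0 < m) (hY : 0 ≤ Y) (h : J + 1 / (2 * m ^ 2) * Y ≤ 3 * π ^ 2 / m) :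
    Y * J ≤ 9 / 2 * π ^ 4 := by
  have h2 : Y * J ≤ Y * (3 * π ^ 2 / m - 1 / (2 * m ^ 2) * Y) :=
    mul_le_mul_of_nonneg_left (by linarith) hY
  set x := Y / m with hx
  have h3 : Y * (3 * π ^ 2 / m - 1 / (2 * m ^ 2) * Y) = 3 * π ^ 2 * x - x ^ 2 / 2 := by
    rw [hx]
    field_simp
  nlinarith [sq_nonneg (x - 3 * π ^ 2)]

theorem exists_max (S : Setup L f f1 f2 n) (f0 : f 0 = 0) (fL : f L = 0) :
    ∃ r0 ∈ Ioo 0 L, f1 r0 = 0 ∧ 0 < f r0 ∧ ∀ r ∈ Ioo 0 L, f r ≤ f r0 := by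
  have hL := S.hL
  obtain ⟨r0, hr0, hmax⟩ := isCompact_Icc.exists_isMaxOn (nonempty_Icc.mpr hL.le)
    (S.cf.continuousOn (s := Icc 0 L))
  have h1 : 0 < f (L / 2) := S.fpos _ ⟨by linarith, by linarith⟩
  have h2 : 0 < f r0 := h1.trans_le (hmax ⟨by linarith, by linarith⟩)
  have h3 : r0 ≠ 0 := by
    rintro rfl
    rw [f0] at h2
    exact lt_irrefl _ h2
  have h4 : r0 ≠ L := by
    rintro rfl
    rw [fL] at h2
    exact lt_irrefl _ h2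
  have hI : r0 ∈ Ioo 0 L := ⟨lt_of_le_of_ne hr0.1 (Ne.symm h3), lt_of_le_of_ne hr0.2 h4⟩
  refine ⟨r0, hI, ?_, h2, fun r hr => hmax ⟨hr.1.le, hr.2.le⟩⟩
  have : IsLocalMax f r0 := hmax.isLocalMax (Icc_mem_nhds hI.1 hI.2)
  exact this.hasDerivAt_eq_zero (S.df r0)

theorem finalM (S : Setup L f f1 f2 n) (hp : ∀ r ∈ Ioo 0 L, ∀ θ φ, |pp n f1 r θ φ| ≤ 1)
    (hR : ∀ r ∈ Ioo 0 L, 0 ≤ SI (s1 n f f1 f2 r)) {m a b : ℝ} (hm : 0 < m)
    (hM : Mst L n f f1 f2 m a b) (hfm : ∀ r ∈ Ioo 0 L, f r ≤ m) (hab : a ≤ b)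
    (ha : 0 ≤ a) (hb : b ≤ L) :
    (∫ r in a..b, SI (vl n f r)) ^ (1 / 3 : ℝ) * (∫ r in a..b, SI (s2 n f f1 f2 r))
      ≤ 3 / 4 * (2 * π ^ 2) ^ (4 / 3 : ℝ) ∧
    (∫ r in a..b, SI (s1 n f f1 f2 r)) * (∫ r in a..b, SI (s2 n f f1 f2 r))
      ≤ 9 / 2 * π ^ 4 := by
  have hsub : ∀ r ∈ Ioo a b, r ∈ Ioo 0 L := fun r hr =>
    ⟨ha.trans_lt hr.1, hr.2.trans_le hb⟩
  by_cases i2 : IntervalIntegrable (fun r => SI (s2 n f f1 f2 r)) volume a b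
  swap
  · rw [intervalIntegral.integral_undef i2, mul_zero, mul_zero]
    constructor <;> positivity
  constructor
  · by_cases i0 : IntervalIntegrable (fun r => SI (vl n f r)) volume a b
    swap
    · rw [intervalIntegral.integral_undef i0, zero_rpow (by norm_num), zero_mul]
      positivity
    exact amgmV hm (int_nonneg hab fun r hr => S.SI_vl_nonneg (hsub r hr))
      (S.thmV hp hm hM hfm i2 i0)
  · by_cases i1 : IntervalIntegrable (fun r => SI (s1 n f f1 f2 r)) volume a b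
    swap
    · rw [intervalIntegral.integral_undef i1, zero_mul]
      positivity
    exact amgmY hm (int_nonneg hab fun r hr => hR r (hsub r hr)) (S.thmY hp hm hM hfm i2 i1)

theorem final (S : Setup L f f1 f2 n) (hp : ∀ r ∈ Ioo 0 L, ∀ θ φ, |pp n f1 r θ φ| ≤ 1)
    (f0 : f 0 = 0) (fL : f L = 0) (hR : ∀ r ∈ Ioo 0 L, 0 ≤ SI (s1 n f f1 f2 r)) :
    (∫ r in (0 : ℝ)..L, SI (vl n f r)) ^ (1 / 3 : ℝ) * (∫ r in (0 : ℝ)..L, SI (s2 n f f1 f2 r))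
      ≤ 3 / 4 * (2 * π ^ 2) ^ (4 / 3 : ℝ) ∧
    (∫ r in (0 : ℝ)..L, SI (s1 n f f1 f2 r)) * (∫ r in (0 : ℝ)..L, SI (s2 n f f1 f2 r))
      ≤ 9 / 2 * π ^ 4 := by
  obtain ⟨r0, hr0, hf1, hm, hmax⟩ := S.exists_max f0 fL
  exact S.finalM hp hR hm (fun c hc W hW H => S.master hp f0 fL hm hr0 rfl hf1 c hc W hW H) hmax
    S.hL.le le_rfl le_rfl

end Setup

end

end Pool.Agent.Lib_helper94.QS
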