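import Pool.Agent.Lib_helper94.QS.Defs

/-!
# The curvature of a metric `N² dr² + f(r)² (dθ² + sin² θ dφ²)`
-/

set_option autoImplicit false

namespace Pool.Agent.Lib_helper94.QS

open Real Filter Topology

noncomputable section

/-- Data of a metric: the lapse `N` with its first and second derivatives, and `f`. -/
structure Data (N : (Fin 3 → ℝ) → ℝ) (N1 : Fin 3 → (Fin 3 → ℝ) → ℝ)
    (N2 : Fin 3 → Fin 3 → (Fin 3 → ℝ) → ℝ) (f f1 f2 : ℝ → ℝ) : Prop where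
  d1 : ∀ m y, HasDerivAt (fun t => N (Function.update y m t)) (N1 m y) (y m)
  d2 : ∀ i m y, HasDerivAt (fun t => N1 i (Function.update y m t)) (N2 i m y) (y m)
  sym : ∀ i m y, N2 i m y = N2 m i y
  df : ∀ r, HasDerivAt f (f1 r) r
  df1 : ∀ r, HasDerivAt f1 (f2 r) r

/-- The metric `N² dr² + f² (dθ² + sin² θ dφ²)`. -/
def met (N : (Fin 3 → ℝ) → ℝ) (f : ℝ → ℝ) (y : Fin 3 → ℝ) : Matrix (Fin 3) (Fin 3) ℝ :=
  Matrix.diagonal ![N y ^ 2, f (y 0) ^ 2, (f (y 0) * sin (y 1)) ^ 2]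

/-- The chart. -/
def Good (N : (Fin 3 → ℝ) → ℝ) (f : ℝ → ℝ) (y : Fin 3 → ℝ) : Prop :=
  0 < N y ∧ 0 < f (y 0) ∧ 0 < sin (y 1)

def del (a m : Fin 3) : ℝ := if m = a then 1 else 0

variable {N : (Fin 3 → ℝ) → ℝ} {N1 : Fin 3 → (Fin 3 → ℝ) → ℝ}
  {N2 : Fin 3 → Fin 3 → (Fin 3 → ℝ) → ℝ} {f f1 f2 : ℝ → ℝ}

theorem der_coord {g : ℝ → ℝ} {g' : ℝ} (a m : Fin 3) (y : Fin 3 → ℝ) (h : HasDerivAt g g' (y a)) :
    HasDerivAt (fun t => g (Function.update y m t a)) (g' * del a m) (y m) := by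
  by_cases hm : m = a
  · subst hm
    simpa [del] using h
  · have : (fun t => g (Function.update y m t a)) = fun _ => g (y a) := by
      funext t
      rw [Function.update_of_ne (Ne.symm hm)]
    rw [this, del, if_neg hm, mul_zero]
    exact hasDerivAt_const _ _

theorem good_near (h : Data N N1 N2 f f1 f2) {y : Fin 3 → ℝ} (hy : Good N f y) (m : Fin 3) :
    ∀ᶠ t in 𝓝 (y m), Good N f (Function.update y m t) := by
  have e1 : ∀ᶠ t in 𝓝 (y m), 0 < N (Function.update y m t) := by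
    have := (h.d1 m y).continuousAt
    refine this.eventually (lt_mem_nhds ?_)
    simpa using hy.1
  have e2 : ∀ᶠ t in 𝓝 (y m), 0 < f (Function.update y m t 0) := by
    have := (der_coord 0 m y (h.df (y 0))).continuousAt
    refine this.eventually (lt_mem_nhds ?_)
    simpa using hy.2.1
  have e3 : ∀ᶠ t in 𝓝 (y m), 0 < sin (Function.update y m t 1) := by
    have := (der_coord 1 m y (hasDerivAt_sin (y 1))).continuousAt
    refine this.eventually (lt_mem_nhds ?_)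
    simpa using hy.2.2
  filter_upwards [e1, e2, e3] with t a b c using ⟨a, b, c⟩

theorem met_inv {y : Fin 3 → ℝ} (hy : Good N f y) : (met N f y)⁻¹
    = Matrix.diagonal ![1 / N y ^ 2, 1 / f (y 0) ^ 2, 1 / (f (y 0) * sin (y 1)) ^ 2] := by
  apply Matrix.inv_eq_right_inv
  rw [met, Matrix.diagonal_mul_diagonal, ← Matrix.diagonal_one]
  congr 1
  funext i
  have h1 := hy.1.ne'
  have h2 := hy.2.1.ne'
  have h3 := hy.2.2.ne'
  fin_cases i <;> simp <;> field_simp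

/-- The derivatives of the entries of the metric. -/
def dmet (N : (Fin 3 → ℝ) → ℝ) (N1 : Fin 3 → (Fin 3 → ℝ) → ℝ) (f f1 : ℝ → ℝ) (m : Fin 3)
    (y : Fin 3 → ℝ) : Matrix (Fin 3) (Fin 3) ℝ :=
  Matrix.diagonal ![2 * N y * N1 m y, 2 * f (y 0) * (f1 (y 0) * del 0 m),
    2 * (f (y 0) * sin (y 1)) * (f1 (y 0) * del 0 m * sin (y 1)
      + f (y 0) * (cos (y 1) * del 1 m))]

theorem pd_met (h : Data N N1 N2 f f1 f2) (m j l : Fin 3) (y : Fin 3 → ℝ) :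
    pd m (fun y => met N f y j l) y = dmet N N1 f f1 m y j l := by
  have hN := h.d1 m y
  have hf := der_coord 0 m y (h.df (y 0))
  have hs := der_coord 1 m y (hasDerivAt_sin (y 1))
  rw [pd]
  apply HasDerivAt.deriv
  by_cases hjl : j = l
  · subst hjl
    simp only [met, dmet, Matrix.diagonal_apply_eq]
    fin_cases j
    · have := hN.fun_pow 2
      simpa using this
    · have := hf.fun_pow 2
      simpa using this
    · have := (hf.fun_mul hs).fun_pow 2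
      simpa using this
  · simp only [met, dmet, Matrix.diagonal_apply_ne _ hjl]
    exact hasDerivAt_const _ _

/-- The Christoffel symbols of the metric, explicitly. -/
def Gam (N : (Fin 3 → ℝ) → ℝ) (N1 : Fin 3 → (Fin 3 → ℝ) → ℝ) (f f1 : ℝ → ℝ) (k i j : Fin 3)
    (y : Fin 3 → ℝ) : ℝ :=
  match k, i, j with
  | 0, 0, 0 => N1 0 y / N y
  | 0, 0, 1 => N1 1 y / N y
  | 0, 1, 0 => N1 1 y / N y
  | 0, 0, 2 => N1 2 y / N y
  | 0, 2, 0 => N1 2 y / N y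
  | 0, 1, 1 => -(f (y 0) * f1 (y 0)) / N y ^ 2
  | 0, 2, 2 => -(f (y 0) * f1 (y 0) * sin (y 1) ^ 2) / N y ^ 2
  | 1, 0, 0 => -(N y * N1 1 y) / f (y 0) ^ 2
  | 1, 0, 1 => f1 (y 0) / f (y 0)
  | 1, 1, 0 => f1 (y 0) / f (y 0)
  | 1, 2, 2 => -(sin (y 1) * cos (y 1))
  | 2, 0, 0 => -(N y * N1 2 y) / (f (y 0) ^ 2 * sin (y 1) ^ 2)
  | 2, 0, 2 => f1 (y 0) / f (y 0)
  | 2, 2, 0 => f1 (y 0) / f (y 0)
  | 2, 1, 2 => cos (y 1) / sin (y 1)
  | 2, 2, 1 => cos (y 1) / sin (y 1)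
  | _, _, _ => 0

theorem chris_eq (h : Data N N1 N2 f f1 f2) {y : Fin 3 → ℝ} (hy : Good N f y) (k i j : Fin 3) :
    christoffel (met N f) k i j y = Gam N N1 f f1 k i j y := by
  have h1 := hy.1.ne'
  have h2 := hy.2.1.ne'
  have h3 := hy.2.2.ne'
  simp only [christoffel, pd_met h, met_inv hy, dmet]
  fin_cases k <;> fin_cases i <;> fin_cases j <;>
    simp [Gam, Matrix.diagonal_apply, del] <;> field_simp

theorem pd_chris (h : Data N N1 N2 f f1 f2) {y : Fin 3 → ℝ} (hy : Good N f y) {k i j m : Fin 3}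
    {v : ℝ} (hv : HasDerivAt (fun t => Gam N N1 f f1 k i j (Function.update y m t)) v (y m)) :
    pd m (christoffel (met N f) k i j) y = v := by
  rw [pd]
  have : (fun t => christoffel (met N f) k i j (Function.update y m t))
      =ᶠ[𝓝 (y m)] fun t => Gam N N1 f f1 k i j (Function.update y m t) := by
    filter_upwards [good_near h hy m] with t ht using chris_eq h ht k i j
  rw [this.deriv_eq]
  exact hv.deriv

/-- The derivatives of the Christoffel symbols. -/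
def dGam (N : (Fin 3 → ℝ) → ℝ) (N1 : Fin 3 → (Fin 3 → ℝ) → ℝ)
    (N2 : Fin 3 → Fin 3 → (Fin 3 → ℝ) → ℝ) (f f1 f2 : ℝ → ℝ) (m k i j : Fin 3)
    (y : Fin 3 → ℝ) : ℝ :=
  match k, i, j with
  | 0, 0, 0 => (N2 0 m y * N y - N1 0 y * N1 m y) / N y ^ 2
  | 0, 0, 1 => (N2 1 m y * N y - N1 1 y * N1 m y) / N y ^ 2
  | 0, 1, 0 => (N2 1 m y * N y - N1 1 y * N1 m y) / N y ^ 2
  | 0, 0, 2 => (N2 2 m y * N y - N1 2 y * N1 m y) / N y ^ 2
  | 0, 2, 0 => (N2 2 m y * N y - N1 2 y * N1 m y) / N y ^ 2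
  | 0, 1, 1 => (-(f1 (y 0) * del 0 m * f1 (y 0) + f (y 0) * (f2 (y 0) * del 0 m)) * N y ^ 2
      - -(f (y 0) * f1 (y 0)) * (2 * N y * N1 m y)) / (N y ^ 2) ^ 2
  | 0, 2, 2 => (-((f1 (y 0) * del 0 m * f1 (y 0) + f (y 0) * (f2 (y 0) * del 0 m)) * sin (y 1) ^ 2
      + f (y 0) * f1 (y 0) * (2 * sin (y 1) * (cos (y 1) * del 1 m))) * N y ^ 2
      - -(f (y 0) * f1 (y 0) * sin (y 1) ^ 2) * (2 * N y * N1 m y)) / (N y ^ 2) ^ 2
  | 1, 0, 0 => (-(N1 m y * N1 1 y + N y * N2 1 m y) * f (y 0) ^ 2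
      - -(N y * N1 1 y) * (2 * f (y 0) * (f1 (y 0) * del 0 m))) / (f (y 0) ^ 2) ^ 2
  | 1, 0, 1 => (f2 (y 0) * del 0 m * f (y 0) - f1 (y 0) * (f1 (y 0) * del 0 m)) / f (y 0) ^ 2
  | 1, 1, 0 => (f2 (y 0) * del 0 m * f (y 0) - f1 (y 0) * (f1 (y 0) * del 0 m)) / f (y 0) ^ 2
  | 1, 2, 2 => -(cos (y 1) * del 1 m * cos (y 1) + sin (y 1) * (-sin (y 1) * del 1 m))
  | 2, 0, 0 => (-(N1 m y * N1 2 y + N y * N2 2 m y) * (f (y 0) ^ 2 * sin (y 1) ^ 2)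
      - -(N y * N1 2 y) * (2 * f (y 0) * (f1 (y 0) * del 0 m) * sin (y 1) ^ 2
        + f (y 0) ^ 2 * (2 * sin (y 1) * (cos (y 1) * del 1 m)))) / (f (y 0) ^ 2 * sin (y 1) ^ 2) ^ 2
  | 2, 0, 2 => (f2 (y 0) * del 0 m * f (y 0) - f1 (y 0) * (f1 (y 0) * del 0 m)) / f (y 0) ^ 2
  | 2, 2, 0 => (f2 (y 0) * del 0 m * f (y 0) - f1 (y 0) * (f1 (y 0) * del 0 m)) / f (y 0) ^ 2
  | 2, 1, 2 => (-sin (y 1) * del 1 m * sin (y 1) - cos (y 1) * (cos (y 1) * del 1 m))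
      / sin (y 1) ^ 2
  | 2, 2, 1 => (-sin (y 1) * del 1 m * sin (y 1) - cos (y 1) * (cos (y 1) * del 1 m))
      / sin (y 1) ^ 2
  | _, _, _ => 0

theorem hasDerivAt_Gam (h : Data N N1 N2 f f1 f2) {y : Fin 3 → ℝ} (hy : Good N f y)
    (m k i j : Fin 3) : HasDerivAt (fun t => Gam N N1 f f1 k i j (Function.update y m t))
      (dGam N N1 N2 f f1 f2 m k i j y) (y m) := by
  have n0 : N (Function.update y m (y m)) ≠ 0 := by simpa using hy.1.ne'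
  have f0 : f (Function.update y m (y m) 0) ≠ 0 := by simpa using hy.2.1.ne'
  have s0 : sin (Function.update y m (y m) 1) ≠ 0 := by simpa using hy.2.2.ne'
  have hN := h.d1 m y
  have h1 := fun i => h.d2 i m y
  have hf := der_coord 0 m y (h.df (y 0))
  have hf1 := der_coord 0 m y (h.df1 (y 0))
  have hs := der_coord 1 m y (hasDerivAt_sin (y 1))
  have hc := der_coord 1 m y (hasDerivAt_cos (y 1))
  fin_cases k <;> fin_cases i <;> fin_cases j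
  all_goals simp only [Gam, dGam]
  all_goals first
    | exact hasDerivAt_const _ _
    | (simpa using (h1 0).fun_div hN n0)
    | (simpa using (h1 1).fun_div hN n0)
    | (simpa using (h1 2).fun_div hN n0)
    | (simpa using hf1.fun_div hf f0)
    | (simpa using hc.fun_div hs s0)
    | (simpa using (hs.fun_mul hc).fun_neg)
    | (simpa using ((hf.fun_mul hf1).fun_neg).fun_div (hN.fun_pow 2) (pow_ne_zero 2 n0))
    | (simpa using (((hf.fun_mul hf1).fun_mul (hs.fun_pow 2)).fun_neg).fun_div (hN.fun_pow 2)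
        (pow_ne_zero 2 n0))
    | (simpa using ((hN.fun_mul (h1 1)).fun_neg).fun_div (hf.fun_pow 2) (pow_ne_zero 2 f0))
    | (simpa using ((hN.fun_mul (h1 2)).fun_neg).fun_div ((hf.fun_pow 2).fun_mul (hs.fun_pow 2))
        (mul_ne_zero (pow_ne_zero 2 f0) (pow_ne_zero 2 s0)))

theorem pd_chris_eq (h : Data N N1 N2 f f1 f2) {y : Fin 3 → ℝ} (hy : Good N f y)
    (m k i j : Fin 3) : pd m (christoffel (met N f) k i j) y = dGam N N1 N2 f f1 f2 m k i j y :=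
  pd_chris h hy (hasDerivAt_Gam h hy m k i j)

/-- The Laplacian of `N` on the unit sphere. -/
def lap (N1 : Fin 3 → (Fin 3 → ℝ) → ℝ) (N2 : Fin 3 → Fin 3 → (Fin 3 → ℝ) → ℝ)
    (y : Fin 3 → ℝ) : ℝ :=
  N2 1 1 y + (N2 2 2 y / sin (y 1) ^ 2 + cos (y 1) / sin (y 1) * N1 1 y)

/-- The sectional curvature of the planes tangent to the spheres. -/
def kap (N : (Fin 3 → ℝ) → ℝ) (f f1 : ℝ → ℝ) (y : Fin 3 → ℝ) : ℝ :=
  (1 - (f1 (y 0) / N y) ^ 2) / f (y 0) ^ 2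

/-- The Ricci curvature in the normal direction. -/
def rho (N : (Fin 3 → ℝ) → ℝ) (N1 : Fin 3 → (Fin 3 → ℝ) → ℝ)
    (N2 : Fin 3 → Fin 3 → (Fin 3 → ℝ) → ℝ) (f f1 f2 : ℝ → ℝ) (y : Fin 3 → ℝ) : ℝ :=
  -2 * ((f2 (y 0) * N y - f1 (y 0) * N1 0 y) / N y ^ 2) / (N y * f (y 0))
    - lap N1 N2 y / (f (y 0) ^ 2 * N y)

/-- The Ricci tensor, explicitly. -/
def Ric (N : (Fin 3 → ℝ) → ℝ) (N1 : Fin 3 → (Fin 3 → ℝ) → ℝ)
    (N2 : Fin 3 → Fin 3 → (Fin 3 → ℝ) → ℝ) (f f1 f2 : ℝ → ℝ) (i j : Fin 3)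
    (y : Fin 3 → ℝ) : ℝ :=
  match i, j with
  | 0, 0 => N y ^ 2 * rho N N1 N2 f f1 f2 y
  | 0, 1 => f1 (y 0) * N1 1 y / (f (y 0) * N y)
  | 1, 0 => f1 (y 0) * N1 1 y / (f (y 0) * N y)
  | 0, 2 => f1 (y 0) * N1 2 y / (f (y 0) * N y)
  | 2, 0 => f1 (y 0) * N1 2 y / (f (y 0) * N y)
  | 1, 1 => f (y 0) ^ 2 * (kap N f f1 y + rho N N1 N2 f f1 f2 y / 2)
      - (N2 1 1 y - lap N1 N2 y / 2) / N y
  | 2, 2 => sin (y 1) ^ 2 * (f (y 0) ^ 2 * (kap N f f1 y + rho N N1 N2 f f1 f2 y / 2)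
      - ((N2 2 2 y / sin (y 1) ^ 2 + cos (y 1) / sin (y 1) * N1 1 y) - lap N1 N2 y / 2) / N y)
  | 1, 2 => -(N2 1 2 y - cos (y 1) / sin (y 1) * N1 2 y) / N y
  | 2, 1 => -(N2 1 2 y - cos (y 1) / sin (y 1) * N1 2 y) / N y

theorem ricci_eq (h : Data N N1 N2 f f1 f2) {y : Fin 3 → ℝ} (hy : Good N f y) (i j : Fin 3) :
    ricci (met N f) i j y = Ric N N1 N2 f f1 f2 i j y := by
  have h1 := hy.1.ne'
  have h2 := hy.2.1.ne'
  have h3 := hy.2.2.ne'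
  have e01 := h.sym 1 0 y
  have e02 := h.sym 2 0 y
  have e12 := h.sym 2 1 y
  have hc : cos (y 1) ^ 2 = 1 - sin (y 1) ^ 2 := by
    have := sin_sq_add_cos_sq (y 1)
    linarith
  simp only [ricci, pd_chris_eq h hy, chris_eq h hy]
  fin_cases i <;> fin_cases j <;>
    simp [Fin.sum_univ_three, Gam, dGam, Ric, rho, kap, lap, del, e01, e02, e12] <;>
    field_simp <;> (try ring_nf) <;> (try simp only [hc]) <;> (try ring_nf)

theorem scalar_eq (h : Data N N1 N2 f f1 f2) {y : Fin 3 → ℝ} (hy : Good N f y) :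
    scalarCurv (met N f) y = 2 * (kap N f f1 y + rho N N1 N2 f f1 f2 y) := by
  have h1 := hy.1.ne'
  have h2 := hy.2.1.ne'
  have h3 := hy.2.2.ne'
  simp only [scalarCurv, ricci_eq h hy, met_inv hy]
  generalize hk : kap N f f1 y = k
  generalize hr : rho N N1 N2 f f1 f2 y = r
  simp [Fin.sum_univ_three, Ric, hk, hr, Matrix.diagonal_apply]
  simp only [lap]
  field_simp
  ring

theorem ricciSq_eq (h : Data N N1 N2 f f1 f2) {y : Fin 3 → ℝ} (hy : Good N f y) :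
    ricciSq (met N f) y = rho N N1 N2 f f1 f2 y ^ 2
      + 1 / 2 * (2 * kap N f f1 y + rho N N1 N2 f f1 f2 y) ^ 2
      + 2 * ((f1 (y 0) / N y) ^ 2 * (N1 1 y ^ 2 + N1 2 y ^ 2 / sin (y 1) ^ 2)
        / (N y ^ 2 * f (y 0) ^ 4))
      + (1 / 2 * (N2 1 1 y - (N2 2 2 y / sin (y 1) ^ 2 + cos (y 1) / sin (y 1) * N1 1 y)) ^ 2
        + 2 * ((N2 1 2 y - cos (y 1) / sin (y 1) * N1 2 y) / sin (y 1)) ^ 2)
        / (N y ^ 2 * f (y 0) ^ 4) := by
  have h1 := hy.1.ne'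
  have h2 := hy.2.1.ne'
  have h3 := hy.2.2.ne'
  simp only [ricciSq, ricci_eq h hy, met_inv hy]
  generalize hk : kap N f f1 y = k
  generalize hr : rho N N1 N2 f f1 f2 y = r
  simp [Fin.sum_univ_three, Ric, hk, hr, Matrix.diagonal_apply]
  simp only [lap]
  field_simp
  ring

theorem sigmaTwo_eq (h : Data N N1 N2 f f1 f2) {y : Fin 3 → ℝ} (hy : Good N f y) :
    sigmaTwo (met N f) y = kap N f f1 y * rho N N1 N2 f f1 f2 y / 2 - kap N f f1 y ^ 2 / 4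
      - (f1 (y 0) / N y) ^ 2 * (N1 1 y ^ 2 + N1 2 y ^ 2 / sin (y 1) ^ 2) / (N y ^ 2 * f (y 0) ^ 4)
      - 1 / 2 * ((1 / 2 * (N2 1 1 y - (N2 2 2 y / sin (y 1) ^ 2
        + cos (y 1) / sin (y 1) * N1 1 y)) ^ 2
        + 2 * ((N2 1 2 y - cos (y 1) / sin (y 1) * N1 2 y) / sin (y 1)) ^ 2)
        / (N y ^ 2 * f (y 0) ^ 4)) := by
  rw [sigmaTwo, scalar_eq h hy, ricciSq_eq h hy]
  ring

theorem sqrt_det {y : Fin 3 → ℝ} (hy : Good N f y) :
    √(met N f y).det = N y * f (y 0) ^ 2 * sin (y 1) := by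
  have h1 := hy.1
  have h2 := hy.2.1
  have h3 := hy.2.2
  rw [met, Matrix.det_diagonal, Fin.prod_univ_three]
  have : (![N y ^ 2, f (y 0) ^ 2, (f (y 0) * sin (y 1)) ^ 2] : Fin 3 → ℝ) 0
      * ![N y ^ 2, f (y 0) ^ 2, (f (y 0) * sin (y 1)) ^ 2] 1
      * ![N y ^ 2, f (y 0) ^ 2, (f (y 0) * sin (y 1)) ^ 2] 2
      = (N y * f (y 0) ^ 2 * sin (y 1)) ^ 2 := by
    simp
    ring
  rw [this, sqrt_sq (by positivity)]

end

end Pool.Agent.Lib_helper94.QS
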