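import Mathlib

/-!
# Curvature of a 3-dimensional metric in coordinates, metrics foliated by round spheres
-/

set_option autoImplicit false

namespace Pool.Agent.Lib_helper94.QS

open Real

noncomputable section

/-- Partial derivative in the direction of the coordinate `i`. -/
def pd (i : Fin 3) (F : (Fin 3 → ℝ) → ℝ) (x : Fin 3 → ℝ) : ℝ :=
  deriv (fun t => F (Function.update x i t)) (x i)

/-- The Christoffel symbol `Γᵏᵢⱼ` of the metric `G`. -/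
def christoffel (G : (Fin 3 → ℝ) → Matrix (Fin 3) (Fin 3) ℝ) (k i j : Fin 3) (x : Fin 3 → ℝ) : ℝ :=
  1 / 2 * ∑ l, (G x)⁻¹ k l * (pd i (fun y => G y j l) x + pd j (fun y => G y i l) x
    - pd l (fun y => G y i j) x)

/-- The Ricci tensor of the metric `G`. -/
def ricci (G : (Fin 3 → ℝ) → Matrix (Fin 3) (Fin 3) ℝ) (i j : Fin 3) (x : Fin 3 → ℝ) : ℝ :=
  ∑ k, (pd k (christoffel G k i j) x - pd j (christoffel G k i k) x)
    + ∑ k, ∑ l, (christoffel G k k l x * christoffel G l i j x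
      - christoffel G k j l x * christoffel G l i k x)

/-- The scalar curvature. -/
def scalarCurv (G : (Fin 3 → ℝ) → Matrix (Fin 3) (Fin 3) ℝ) (x : Fin 3 → ℝ) : ℝ :=
  ∑ i, ∑ j, (G x)⁻¹ i j * ricci G i j x

/-- The squared norm of the Ricci tensor. -/
def ricciSq (G : (Fin 3 → ℝ) → Matrix (Fin 3) (Fin 3) ℝ) (x : Fin 3 → ℝ) : ℝ :=
  ∑ i, ∑ j, ∑ k, ∑ l, (G x)⁻¹ i k * (G x)⁻¹ j l * ricci G i j x * ricci G k l x

/-- `σ₁ = R / 4`. -/
def sigmaOne (G : (Fin 3 → ℝ) → Matrix (Fin 3) (Fin 3) ℝ) (x : Fin 3 → ℝ) : ℝ :=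
  scalarCurv G x / 4

/-- `σ₂ = (3 R² / 8 - |Ric|²) / 2`. -/
def sigmaTwo (G : (Fin 3 → ℝ) → Matrix (Fin 3) (Fin 3) ℝ) (x : Fin 3 → ℝ) : ℝ :=
  1 / 2 * (3 / 8 * scalarCurv G x ^ 2 - ricciSq G x)

/-- The point of the unit sphere with polar angle `θ` and azimuth `φ`. -/
def sph (θ φ : ℝ) : EuclideanSpace ℝ (Fin 3) := !₂[sin θ * cos φ, sin θ * sin φ, cos θ]

/-- The metric `n(r, ω)² dr² + f(r)² (dθ² + sin² θ dφ²)` in the coordinates `x = (r, θ, φ)`, where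
`ω` is the point of the unit sphere with coordinates `(θ, φ)`. -/
def metric (f : ℝ → ℝ) (n : ℝ → EuclideanSpace ℝ (Fin 3) → ℝ) (x : Fin 3 → ℝ) :
    Matrix (Fin 3) (Fin 3) ℝ :=
  Matrix.diagonal ![n (x 0) (sph (x 1) (x 2)) ^ 2, f (x 0) ^ 2, (f (x 0) * sin (x 1)) ^ 2]

/-- The integral of `F` with respect to the Riemannian measure `√(det G) dr dθ dφ` over
`0 < r < L`, `0 < θ < π`, `0 < φ < 2 π`. -/
def total (G : (Fin 3 → ℝ) → Matrix (Fin 3) (Fin 3) ℝ) (L : ℝ) (F : (Fin 3 → ℝ) → ℝ) : ℝ :=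
  ∫ r in (0 : ℝ)..L, ∫ θ in (0 : ℝ)..π, ∫ φ in (0 : ℝ)..(2 * π),
    F ![r, θ, φ] * √(G ![r, θ, φ]).det

/-- The metric `n(r, ω)² dr² + f(r)² g_{S²}` lives on the 3-sphere: `f` vanishes at `0` and at `L`
only, `n` is positive, and `n = |f'|` at the two poles `r = 0` and `r = L` (the condition for the
metric to extend continuously to the poles). -/
structure OnSphere (L : ℝ) (f : ℝ → ℝ) (n : ℝ → EuclideanSpace ℝ (Fin 3) → ℝ) : Prop where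
  f_zero : f 0 = 0
  f_L : f L = 0
  f_pos : ∀ r ∈ Set.Ioo 0 L, 0 < f r
  n_pos : ∀ r ∈ Set.Icc 0 L, ∀ ω : EuclideanSpace ℝ (Fin 3), ‖ω‖ = 1 → 0 < n r ω
  n_zero : ∀ ω : EuclideanSpace ℝ (Fin 3), ‖ω‖ = 1 → n 0 ω = deriv f 0
  n_L : ∀ ω : EuclideanSpace ℝ (Fin 3), ‖ω‖ = 1 → n L ω = -deriv f L
  /-- The scalar curvature is nonnegative away from the poles. -/
  scalar : ∀ r ∈ Set.Ioo 0 L, ∀ θ ∈ Set.Ioo 0 π, ∀ φ, 0 ≤ scalarCurv (metric f n) ![r, θ, φ]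

/-- The metric `n(r, ω)² dr² + f(r)² g_{S²}` lives on the product of the circle `ℝ / L ℤ` and the
2-sphere. -/
structure OnProduct (L : ℝ) (f : ℝ → ℝ) (n : ℝ → EuclideanSpace ℝ (Fin 3) → ℝ) : Prop where
  f_per : ∀ r, f (r + L) = f r
  n_per : ∀ r ω, n (r + L) ω = n r ω
  f_pos : ∀ r, 0 < f r
  n_pos : ∀ r, ∀ ω : EuclideanSpace ℝ (Fin 3), ‖ω‖ = 1 → 0 < n r ω
  /-- The scalar curvature is nonnegative. -/
  scalar : ∀ r, ∀ θ ∈ Set.Ioo 0 π, ∀ φ, 0 ≤ scalarCurv (metric f n) ![r, θ, φ]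

end

end Pool.Agent.Lib_helper94.QS
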