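import Pool.Agent.Lib_helper94.QS.Curv

/-!
# The orthonormal frame of the unit sphere and the derivatives of the lapse
-/

set_option autoImplicit false

namespace Pool.Agent.Lib_helper94.QS

open Real Filter Topology

noncomputable section

/-- Euclidean space. -/
abbrev E3 : Type := EuclideanSpace ℝ (Fin 3)

def cmb (a b c : ℝ) : E3 :=
  a • EuclideanSpace.single (0 : Fin 3) (1 : ℝ) + b • EuclideanSpace.single (1 : Fin 3) (1 : ℝ)
    + c • EuclideanSpace.single (2 : Fin 3) (1 : ℝ)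

theorem sph_eq (θ φ : ℝ) : sph θ φ = cmb (sin θ * cos φ) (sin θ * sin φ) (cos θ) := by
  ext i
  fin_cases i <;> simp [sph, cmb]

/-- The unit vector in the direction of `θ`. -/
def eth (θ φ : ℝ) : E3 := cmb (cos θ * cos φ) (cos θ * sin φ) (-sin θ)

/-- The unit vector in the direction of `φ`. -/
def eph (φ : ℝ) : E3 := cmb (-sin φ) (cos φ) 0

theorem hasDerivAt_cmb {a b c : ℝ → ℝ} {a' b' c' t : ℝ} (ha : HasDerivAt a a' t)
    (hb : HasDerivAt b b' t) (hc : HasDerivAt c c' t) :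
    HasDerivAt (fun t => cmb (a t) (b t) (c t)) (cmb a' b' c') t :=
  ((ha.smul_const _).add (hb.smul_const _)).add (hc.smul_const _)

theorem cmb_add (a b c a' b' c' : ℝ) :
    cmb a b c + cmb a' b' c' = cmb (a + a') (b + b') (c + c') := by
  simp only [cmb]; module

theorem cmb_smul (s a b c : ℝ) : s • cmb a b c = cmb (s * a) (s * b) (s * c) := by
  simp only [cmb]; module

theorem cmb_neg (a b c : ℝ) : -cmb a b c = cmb (-a) (-b) (-c) := by
  simp only [cmb]; module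

theorem cmb_congr {a b c a' b' c' : ℝ} (h1 : a = a') (h2 : b = b') (h3 : c = c') :
    cmb a b c = cmb a' b' c' := by rw [h1, h2, h3]

theorem sph_th (θ φ : ℝ) : HasDerivAt (fun t => sph t φ) (eth θ φ) θ := by
  simp only [sph_eq, eth]
  exact hasDerivAt_cmb ((hasDerivAt_sin θ).mul_const _) ((hasDerivAt_sin θ).mul_const _)
    (hasDerivAt_cos θ)

theorem sph_ph (θ φ : ℝ) : HasDerivAt (fun t => sph θ t) (sin θ • eph φ) φ := by
  simp only [sph_eq, eph, cmb_smul]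
  have := hasDerivAt_cmb ((hasDerivAt_cos φ).const_mul (sin θ))
    ((hasDerivAt_sin φ).const_mul (sin θ)) (hasDerivAt_const φ (cos θ))
  simpa using this

theorem eth_th (θ φ : ℝ) : HasDerivAt (fun t => eth t φ) (-sph θ φ) θ := by
  simp only [sph_eq, eth, cmb_neg]
  have := hasDerivAt_cmb ((hasDerivAt_cos θ).mul_const (cos φ))
    ((hasDerivAt_cos θ).mul_const (sin φ)) (hasDerivAt_sin θ).fun_neg
  refine this.congr_deriv (cmb_congr (by ring) (by ring) rfl)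

theorem eth_ph (θ φ : ℝ) : HasDerivAt (fun t => eth θ t) (cos θ • eph φ) φ := by
  simp only [eth, eph, cmb_smul]
  have := hasDerivAt_cmb ((hasDerivAt_cos φ).const_mul (cos θ))
    ((hasDerivAt_sin φ).const_mul (cos θ)) (hasDerivAt_const φ (-sin θ))
  refine this.congr_deriv (cmb_congr (by ring) (by ring) (by ring))

theorem eph_ph (θ φ : ℝ) :
    HasDerivAt (fun t => eph t) (-(sin θ • sph θ φ + cos θ • eth θ φ)) φ := by
  simp only [sph_eq, eth, eph, cmb_smul, cmb_add, cmb_neg]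
  have := hasDerivAt_cmb (hasDerivAt_sin φ).fun_neg (hasDerivAt_cos φ)
    (hasDerivAt_const φ (0 : ℝ))
  have hs := sin_sq_add_cos_sq θ
  refine this.congr_deriv (cmb_congr ?_ ?_ ?_)
  · linear_combination (-cos φ) * (-hs)
  · linear_combination (-sin φ) * (-hs)
  · ring

theorem continuous_sph : Continuous fun z : ℝ × ℝ => sph z.1 z.2 := by
  simp only [sph_eq, cmb]
  fun_prop

theorem continuous_eth : Continuous fun z : ℝ × ℝ => eth z.1 z.2 := by
  simp only [eth, cmb]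
  fun_prop

theorem continuous_eph : Continuous eph := by
  unfold eph cmb
  fun_prop

variable (n : ℝ → E3 → ℝ)

/-- The function `n` on the product. -/
def nu (q : ℝ × E3) : ℝ := n q.1 q.2

def Dn (q : ℝ × E3) : ℝ × E3 →L[ℝ] ℝ := fderiv ℝ (nu n) q

def D2n (q : ℝ × E3) : ℝ × E3 →L[ℝ] ℝ × E3 →L[ℝ] ℝ := fderiv ℝ (Dn n) q

/-- The point of `ℝ × E3` with coordinates `r, θ, φ`. -/
def P (r θ φ : ℝ) : ℝ × E3 := (r, sph θ φ)

variable {n}

theorem hasFDerivAt_nu (hn : ContDiff ℝ 2 (nu n)) (q : ℝ × E3) :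
    HasFDerivAt (nu n) (Dn n q) q :=
  (hn.differentiable (by norm_num) q).hasFDerivAt

theorem contDiff_Dn (hn : ContDiff ℝ 2 (nu n)) : ContDiff ℝ 1 (Dn n) :=
  hn.fderiv_right (by norm_num)

theorem hasFDerivAt_Dn (hn : ContDiff ℝ 2 (nu n)) (q : ℝ × E3) :
    HasFDerivAt (Dn n) (D2n n q) q :=
  ((contDiff_Dn hn).differentiable (by norm_num) q).hasFDerivAt

theorem continuous_Dn (hn : ContDiff ℝ 2 (nu n)) : Continuous (Dn n) := (contDiff_Dn hn).continuous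

theorem continuous_D2n (hn : ContDiff ℝ 2 (nu n)) : Continuous (D2n n) :=
  (contDiff_Dn hn).continuous_fderiv (by norm_num)

theorem D2n_symm (hn : ContDiff ℝ 2 (nu n)) (q u v : ℝ × E3) : D2n n q u v = D2n n q v u := by
  have := (hn.contDiffAt (x := q)).isSymmSndFDerivAt (by simp [minSmoothness_of_isRCLikeNormedField])
  exact this.eq u v

/-- The derivative of the derivative of `n` along curves. -/
theorem der_Dn (hn : ContDiff ℝ 2 (nu n)) {c v : ℝ → ℝ × E3} {c' v' : ℝ × E3} {t : ℝ}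
    (hc : HasDerivAt c c' t) (hv : HasDerivAt v v' t) :
    HasDerivAt (fun s => Dn n (c s) (v s)) (D2n n (c t) c' (v t) + Dn n (c t) v') t := by
  have h1 : HasDerivAt (fun s => Dn n (c s)) (D2n n (c t) c') t :=
    (hasFDerivAt_Dn hn (c t)).comp_hasDerivAt t hc
  exact h1.clm_apply hv

theorem der_nu (hn : ContDiff ℝ 2 (nu n)) {c : ℝ → ℝ × E3} {c' : ℝ × E3} {t : ℝ}
    (hc : HasDerivAt c c' t) : HasDerivAt (fun s => nu n (c s)) (Dn n (c t) c') t :=
  (hasFDerivAt_nu hn (c t)).comp_hasDerivAt t hc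

theorem P_r (r θ φ : ℝ) : HasDerivAt (fun t => P t θ φ) ((1 : ℝ), (0 : E3)) r :=
  (hasDerivAt_id r).prodMk (hasDerivAt_const r _)

theorem P_th (r θ φ : ℝ) : HasDerivAt (fun t => P r t φ) ((0 : ℝ), eth θ φ) θ :=
  (hasDerivAt_const θ r).prodMk (sph_th θ φ)

theorem P_ph (r θ φ : ℝ) : HasDerivAt (fun t => P r θ t) ((0 : ℝ), sin θ • eph φ) φ :=
  (hasDerivAt_const φ r).prodMk (sph_ph θ φ)

theorem pair_der {v : ℝ → E3} {v' : E3} {t : ℝ} (h : HasDerivAt v v' t) :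
    HasDerivAt (fun s => ((0 : ℝ), v s)) ((0 : ℝ), v') t :=
  (hasDerivAt_const t (0 : ℝ)).prodMk h

variable (n) in
/-- The lapse. -/
def Nf (r θ φ : ℝ) : ℝ := nu n (P r θ φ)
variable (n) in
def Nr (r θ φ : ℝ) : ℝ := Dn n (P r θ φ) ((1 : ℝ), (0 : E3))
variable (n) in
def B1 (r θ φ : ℝ) : ℝ := Dn n (P r θ φ) ((0 : ℝ), eth θ φ)
variable (n) in
def B2 (r θ φ : ℝ) : ℝ := Dn n (P r θ φ) ((0 : ℝ), eph φ)
variable (n) in
def Br (r θ φ : ℝ) : ℝ := Dn n (P r θ φ) ((0 : ℝ), sph θ φ)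
variable (n) in
def A11 (r θ φ : ℝ) : ℝ :=
  D2n n (P r θ φ) ((0 : ℝ), eth θ φ) ((0 : ℝ), eth θ φ) - Br n r θ φ
variable (n) in
def A22 (r θ φ : ℝ) : ℝ := D2n n (P r θ φ) ((0 : ℝ), eph φ) ((0 : ℝ), eph φ) - Br n r θ φ
variable (n) in
def A12 (r θ φ : ℝ) : ℝ := D2n n (P r θ φ) ((0 : ℝ), eth θ φ) ((0 : ℝ), eph φ)

theorem pair_smul (s : ℝ) (v : E3) : ((0 : ℝ), s • v) = s • ((0 : ℝ), v) := by
  simp

theorem Nf_r (hn : ContDiff ℝ 2 (nu n)) (r θ φ : ℝ) :
    HasDerivAt (fun t => Nf n t θ φ) (Nr n r θ φ) r := der_nu hn (P_r r θ φ)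

theorem Nf_th (hn : ContDiff ℝ 2 (nu n)) (r θ φ : ℝ) :
    HasDerivAt (fun t => Nf n r t φ) (B1 n r θ φ) θ := der_nu hn (P_th r θ φ)

theorem Nf_ph (hn : ContDiff ℝ 2 (nu n)) (r θ φ : ℝ) :
    HasDerivAt (fun t => Nf n r θ t) (sin θ * B2 n r θ φ) φ := by
  have := der_nu hn (P_ph r θ φ)
  rw [pair_smul, map_smul] at this
  exact this

theorem B1_th (hn : ContDiff ℝ 2 (nu n)) (r θ φ : ℝ) :
    HasDerivAt (fun t => B1 n r t φ) (A11 n r θ φ) θ := by
  refine (der_Dn hn (P_th r θ φ) (pair_der (eth_th θ φ))).congr_deriv ?_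
  have : ((0 : ℝ), -sph θ φ) = -((0 : ℝ), sph θ φ) := by simp
  rw [this, map_neg]
  rfl

theorem B1_ph (hn : ContDiff ℝ 2 (nu n)) (r θ φ : ℝ) :
    HasDerivAt (fun t => B1 n r θ t) (sin θ * A12 n r θ φ + cos θ * B2 n r θ φ) φ := by
  refine (der_Dn hn (P_ph r θ φ) (pair_der (eth_ph θ φ))).congr_deriv ?_
  rw [pair_smul, pair_smul, map_smul, map_smul, smul_apply,
    D2n_symm hn _ ((0 : ℝ), eph φ)]
  rfl

theorem B2_th (hn : ContDiff ℝ 2 (nu n)) (r θ φ : ℝ) :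
    HasDerivAt (fun t => B2 n r t φ) (A12 n r θ φ) θ := by
  refine (der_Dn hn (P_th r θ φ) (hasDerivAt_const θ ((0 : ℝ), eph φ))).congr_deriv ?_
  rw [map_zero, add_zero]
  rfl

theorem B2_ph (hn : ContDiff ℝ 2 (nu n)) (r θ φ : ℝ) :
    HasDerivAt (fun t => B2 n r θ t) (sin θ * A22 n r θ φ - cos θ * B1 n r θ φ) φ := by
  refine (der_Dn hn (P_ph r θ φ) (pair_der (eph_ph θ φ))).congr_deriv ?_
  have : ((0 : ℝ), -(sin θ • sph θ φ + cos θ • eth θ φ))
      = -(sin θ • ((0 : ℝ), sph θ φ) + cos θ • ((0 : ℝ), eth θ φ)) := by simp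
  rw [pair_smul, this, map_neg, map_add, map_smul, map_smul, map_smul,
    smul_apply]
  simp only [smul_eq_mul, A22, Br, B1]
  ring

/-- First derivatives of the lapse in the coordinates. -/
def n1 (n : ℝ → E3 → ℝ) (i : Fin 3) (y : Fin 3 → ℝ) : ℝ :=
  match i with
  | 0 => Nr n (y 0) (y 1) (y 2)
  | 1 => B1 n (y 0) (y 1) (y 2)
  | 2 => sin (y 1) * B2 n (y 0) (y 1) (y 2)

/-- Second derivatives of the lapse in the coordinates. -/
def n2 (n : ℝ → E3 → ℝ) (i m : Fin 3) (y : Fin 3 → ℝ) : ℝ :=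
  match i, m with
  | 0, 0 => D2n n (P (y 0) (y 1) (y 2)) ((1 : ℝ), (0 : E3)) ((1 : ℝ), (0 : E3))
  | 0, 1 => D2n n (P (y 0) (y 1) (y 2)) ((0 : ℝ), eth (y 1) (y 2)) ((1 : ℝ), (0 : E3))
  | 1, 0 => D2n n (P (y 0) (y 1) (y 2)) ((0 : ℝ), eth (y 1) (y 2)) ((1 : ℝ), (0 : E3))
  | 0, 2 => sin (y 1) * D2n n (P (y 0) (y 1) (y 2)) ((0 : ℝ), eph (y 2)) ((1 : ℝ), (0 : E3))
  | 2, 0 => sin (y 1) * D2n n (P (y 0) (y 1) (y 2)) ((0 : ℝ), eph (y 2)) ((1 : ℝ), (0 : E3))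
  | 1, 1 => A11 n (y 0) (y 1) (y 2)
  | 1, 2 => sin (y 1) * A12 n (y 0) (y 1) (y 2) + cos (y 1) * B2 n (y 0) (y 1) (y 2)
  | 2, 1 => sin (y 1) * A12 n (y 0) (y 1) (y 2) + cos (y 1) * B2 n (y 0) (y 1) (y 2)
  | 2, 2 => sin (y 1) * (sin (y 1) * A22 n (y 0) (y 1) (y 2) - cos (y 1) * B1 n (y 0) (y 1) (y 2))

theorem data (hn : ContDiff ℝ 2 (nu n)) {f f1 f2 : ℝ → ℝ} (hf : ∀ r, HasDerivAt f (f1 r) r)
    (hf1 : ∀ r, HasDerivAt f1 (f2 r) r) :
    Data (fun y => n (y 0) (sph (y 1) (y 2))) (n1 n) (n2 n) f f1 f2 := by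
  refine ⟨?_, ?_, ?_, hf, hf1⟩
  · intro m y
    fin_cases m
    · simpa [Nf, nu, P, n1] using Nf_r hn (y 0) (y 1) (y 2)
    · simpa [Nf, nu, P, n1] using Nf_th hn (y 0) (y 1) (y 2)
    · simpa [Nf, nu, P, n1] using Nf_ph hn (y 0) (y 1) (y 2)
  · intro i m y
    fin_cases i <;> fin_cases m
    · have := der_Dn hn (P_r (y 0) (y 1) (y 2)) (hasDerivAt_const (y 0) ((1 : ℝ), (0 : E3)))
      rw [map_zero, add_zero] at this
      simpa [n1, n2, Nr] using this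
    · have := der_Dn hn (P_th (y 0) (y 1) (y 2)) (hasDerivAt_const (y 1) ((1 : ℝ), (0 : E3)))
      rw [map_zero, add_zero] at this
      simpa [n1, n2, Nr] using this
    · have := der_Dn hn (P_ph (y 0) (y 1) (y 2)) (hasDerivAt_const (y 2) ((1 : ℝ), (0 : E3)))
      rw [map_zero, add_zero, pair_smul, map_smul, smul_apply] at this
      simpa [n1, n2, Nr] using this
    · have := der_Dn hn (P_r (y 0) (y 1) (y 2)) (hasDerivAt_const (y 0) ((0 : ℝ), eth (y 1) (y 2)))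
      rw [map_zero, add_zero, D2n_symm hn] at this
      simpa [n1, n2, B1] using this
    · simpa [n1, n2] using B1_th hn (y 0) (y 1) (y 2)
    · simpa [n1, n2] using B1_ph hn (y 0) (y 1) (y 2)
    · have := (der_Dn hn (P_r (y 0) (y 1) (y 2))
        (hasDerivAt_const (y 0) ((0 : ℝ), eph (y 2)))).const_mul (sin (y 1))
      rw [map_zero, add_zero, D2n_symm hn] at this
      simpa [n1, n2, B2] using this
    · have := (hasDerivAt_sin (y 1)).fun_mul (B2_th hn (y 0) (y 1) (y 2))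
      refine HasDerivAt.congr_deriv (f := fun t => n1 n 2 (Function.update y 1 t)) ?_ ?_
        (f' := cos (y 1) * B2 n (y 0) (y 1) (y 2) + sin (y 1) * A12 n (y 0) (y 1) (y 2))
      · simpa [n1] using this
      · simp only [n2]; ring
    · have := (B2_ph hn (y 0) (y 1) (y 2)).const_mul (sin (y 1))
      simpa [n1, n2] using this
  · intro i m y
    fin_cases i <;> fin_cases m <;> rfl

end

end Pool.Agent.Lib_helper94.QS
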