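import Pool.Agent.Lib_helper94.QS.Main

/-!
# The total curvatures and the calibration
-/

set_option autoImplicit false

namespace Pool.Agent.Lib_helper94.QS

open Real MeasureTheory intervalIntegral Set Filter Topology

noncomputable section

namespace Cn

variable {L : ℝ} {F G : ℝ → ℝ → ℝ → ℝ}

theorem add (h1 : Cn L F) (h2 : Cn L G) : Cn L fun r θ φ => F r θ φ + G r θ φ :=
  ContinuousOn.add h1 h2
theorem sub (h1 : Cn L F) (h2 : Cn L G) : Cn L fun r θ φ => F r θ φ - G r θ φ :=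
  ContinuousOn.sub h1 h2
theorem mul (h1 : Cn L F) (h2 : Cn L G) : Cn L fun r θ φ => F r θ φ * G r θ φ :=
  ContinuousOn.mul h1 h2
theorem neg (h1 : Cn L F) : Cn L fun r θ φ => -F r θ φ := ContinuousOn.neg h1
theorem pow (h1 : Cn L F) (k : ℕ) : Cn L fun r θ φ => F r θ φ ^ k := ContinuousOn.pow h1 k
theorem const (L c : ℝ) : Cn L fun _ _ _ => c := continuousOn_const
theorem div (h1 : Cn L F) (h2 : Cn L G) (h : ∀ r ∈ Ioo 0 L, ∀ θ φ, G r θ φ ≠ 0) :
    Cn L fun r θ φ => F r θ φ / G r θ φ :=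
  ContinuousOn.div h1 h2 fun z hz => h z.1 hz.1 z.2.1 z.2.2

end Cn

namespace Setup

variable {L : ℝ} {f f1 f2 : ℝ → ℝ} {n : ℝ → E3 → ℝ}

theorem cn_Nf (S : Setup L f f1 f2 n) : Cn L (Nf n) := (cNf S.hn).continuousOn
theorem cn_Nr (S : Setup L f f1 f2 n) : Cn L (Nr n) := (cNr S.hn).continuousOn
theorem cn_B1 (S : Setup L f f1 f2 n) : Cn L (B1 n) := (cB1 S.hn).continuousOn
theorem cn_B2 (S : Setup L f f1 f2 n) : Cn L (B2 n) := (cB2 S.hn).continuousOn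
theorem cn_A11 (S : Setup L f f1 f2 n) : Cn L (A11 n) := (cA11 S.hn).continuousOn
theorem cn_A22 (S : Setup L f f1 f2 n) : Cn L (A22 n) := (cA22 S.hn).continuousOn
theorem cn_A12 (S : Setup L f f1 f2 n) : Cn L (A12 n) := (cA12 S.hn).continuousOn
theorem cn_f (S : Setup L f f1 f2 n) : Cn L (fun r _ _ => f r) :=
  (S.cf.comp continuous_fst).continuousOn
theorem cn_f1 (S : Setup L f f1 f2 n) : Cn L (fun r _ _ => f1 r) :=
  (S.cf1.comp continuous_fst).continuousOn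
theorem cn_f2 (S : Setup L f f1 f2 n) : Cn L (fun r _ _ => f2 r) :=
  (S.cf2.comp continuous_fst).continuousOn
theorem cn_sin (L : ℝ) : Cn L (fun _ θ _ => sin θ) :=
  (continuous_sin.comp (f := fun z : ℝ × ℝ × ℝ => z.2.1) (by fun_prop)).continuousOn
theorem cn_cos (L : ℝ) : Cn L (fun _ θ _ => cos θ) :=
  (continuous_cos.comp (f := fun z : ℝ × ℝ × ℝ => z.2.1) (by fun_prop)).continuousOn

theorem cn_pp (S : Setup L f f1 f2 n) : Cn L (pp n f1) :=
  S.cn_f1.div S.cn_Nf fun _ hr θ φ => (S.npos' hr θ φ).ne'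

theorem cn_pq (S : Setup L f f1 f2 n) : Cn L (pq n f1 f2) :=
  ((S.cn_f2.mul S.cn_Nf).sub (S.cn_f1.mul S.cn_Nr)).div (S.cn_Nf.pow 2) fun _ hr θ φ =>
    pow_ne_zero 2 (S.npos' hr θ φ).ne'

theorem cn_one (S : Setup L f f1 f2 n) : Cn L (fun r θ φ => 1 - pp n f1 r θ φ ^ 2) :=
  (Cn.const L 1).sub (S.cn_pp.pow 2)

theorem cn_rad (S : Setup L f f1 f2 n) : Cn L (rad n f f1 f2) := by
  refine (((S.cn_one.neg).mul S.cn_pq).div S.cn_f fun _ hr θ φ => (S.fpos _ hr).ne').sub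
    (((S.cn_one.pow 2).mul S.cn_Nf).div ((Cn.const L 4).mul (S.cn_f.pow 2)) fun _ hr θ φ => ?_)
  have := S.fpos _ hr
  positivity

theorem cn_dv1 (S : Setup L f f1 f2 n) : Cn L (dv1 n f1) :=
  ((((S.cn_pp.pow 2).mul (S.cn_B1.pow 2)).mul (cn_sin L)).div S.cn_Nf fun _ hr θ φ =>
    (S.npos' hr θ φ).ne').neg.sub (((Cn.const L (1 / 2)).mul S.cn_one).mul
      (((cn_cos L).mul S.cn_B1).add ((cn_sin L).mul S.cn_A11)))

theorem cn_dv2 (S : Setup L f f1 f2 n) : Cn L (dv2 n f1) :=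
  ((((S.cn_pp.pow 2).mul (S.cn_B2.pow 2)).mul (cn_sin L)).div S.cn_Nf fun _ hr θ φ =>
    (S.npos' hr θ φ).ne').neg.sub (((Cn.const L (1 / 2)).mul S.cn_one).mul
      (((cn_sin L).mul S.cn_A22).sub ((cn_cos L).mul S.cn_B1)))

theorem cn_tf (S : Setup L f f1 f2 n) : Cn L (tf n f) := by
  refine ((cn_sin L).mul (((Cn.const L (1 / 2)).mul ((S.cn_A11.sub S.cn_A22).pow 2)).add
    ((Cn.const L 2).mul (S.cn_A12.pow 2)))).div (((Cn.const L 2).mul S.cn_Nf).mul (S.cn_f.pow 2))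
    fun _ hr θ φ => ?_
  have := S.fpos _ hr
  have := S.npos' hr θ φ
  positivity

theorem cn_vl (S : Setup L f f1 f2 n) : Cn L (vl n f) :=
  (cn_sin L).mul (S.cn_Nf.mul (S.cn_f.pow 2))

theorem cn_lapl (S : Setup L f f1 f2 n) :
    Cn L (fun r θ φ => sin θ * (A11 n r θ φ + A22 n r θ φ)) :=
  (cn_sin L).mul (S.cn_A11.add S.cn_A22)

theorem cn_Th (S : Setup L f f1 f2 n) {m : ℝ} (hm : 0 < m) (c s : ℝ) :
    Cn L (Th n f f1 m c s) := by
  have hG : Cn L (fun r _ _ => GG m c (f r)) := (continuous_GG hm c).comp_continuousOn S.cn_f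
  have hs := (Cn.const L s).mul S.cn_pp
  have hF : Cn L (fun r θ φ => Fp (s * pp n f1 r θ φ)) :=
    ((Cn.const L (2 / 3)).sub hs).add ((hs.pow 3).div (Cn.const L 3) fun _ _ _ _ => by norm_num)
  exact ((Cn.const L s).mul ((hF.div S.cn_f fun _ hr θ φ => (S.fpos _ hr).ne').add hG)).sub
    ((Cn.const L c).mul (S.cn_f.mul S.cn_pp))

theorem cn_dTh (S : Setup L f f1 f2 n) {m : ℝ} (hm : 0 < m) (c s : ℝ) :
    Cn L (dTh n f f1 f2 m c s) := by
  have hg : Cn L (fun r _ _ => gg m (f r)) := (continuous_gg hm).comp_continuousOn S.cn_f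
  have hq : Cn L (fun r _ _ => qq m (f r)) := (continuous_qq hm).comp_continuousOn S.cn_f
  have hs := (Cn.const L s).mul S.cn_pp
  have hF : Cn L (fun r θ φ => Fp (s * pp n f1 r θ φ)) :=
    ((Cn.const L (2 / 3)).sub hs).add ((hs.pow 3).div (Cn.const L 3) fun _ _ _ _ => by norm_num)
  exact (((S.cn_one.neg.mul S.cn_pq).div S.cn_f fun _ hr θ φ => (S.fpos _ hr).ne').add
    (((Cn.const L s).mul S.cn_f1).mul ((hF.neg.div (S.cn_f.pow 2) fun _ hr θ φ =>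
      pow_ne_zero 2 (S.fpos _ hr).ne').add (hg.add ((Cn.const L c).mul hq))))).sub
    ((Cn.const L c).mul ((S.cn_f1.mul S.cn_pp).add (S.cn_f.mul S.cn_pq)))

theorem hasDerivAt_pp (S : Setup L f f1 f2 n) {r : ℝ} (hr : r ∈ Ioo 0 L) (θ φ : ℝ) :
    HasDerivAt (fun t => pp n f1 t θ φ) (pq n f1 f2 r θ φ) r :=
  (S.df1 r).fun_div (Nf_r S.hn r θ φ) (S.npos' hr θ φ).ne'

theorem hasDerivAt_Th (S : Setup L f f1 f2 n) {m : ℝ} (hm : 0 < m) (c : ℝ) {s : ℝ}
    (hs : s ^ 2 = 1) {r : ℝ} (hr : r ∈ Ioo 0 L) (θ φ : ℝ) :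
    HasDerivAt (fun t => Th n f f1 m c s t θ φ) (dTh n f f1 f2 m c s r θ φ) r := by
  have hf := (S.fpos r hr).ne'
  have d1 := S.hasDerivAt_pp hr θ φ
  have d2 := d1.const_mul s
  have d3 : HasDerivAt (fun t => Fp (s * pp n f1 t θ φ))
      (-(s * pq n f1 f2 r θ φ) + 3 * (s * pp n f1 r θ φ) ^ 2 * (s * pq n f1 f2 r θ φ) / 3) r := by
    have := (d2.const_sub (2 / 3)).fun_add ((d2.fun_pow 3).div_const 3)
    simpa [Fp] using this
  have d4 := d3.fun_div (S.df r) hf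
  have d5 : HasDerivAt (fun t => GG m c (f t)) ((gg m (f r) + c * qq m (f r)) * f1 r) r :=
    (hasDerivAt_GG hm c (f r)).comp r (S.df r)
  have d6 := ((d4.fun_add d5).const_mul s).fun_sub (((S.df r).fun_mul d1).const_mul c)
  refine d6.congr_deriv ?_
  unfold dTh
  generalize pp n f1 r θ φ = p at *
  generalize pq n f1 f2 r θ φ = p' at *
  generalize hF : Fp (s * p) = F at *
  have e : s * (-(s * p') + 3 * (s * p) ^ 2 * (s * p') / 3) = -(1 - p ^ 2) * p' := by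
    linear_combination (-p' + p ^ 2 * p' * (s ^ 2 + 1)) * hs
  rw [← e]
  field_simp
  ring

theorem hasDerivAt_V1 (S : Setup L f f1 f2 n) {r : ℝ} (hr : r ∈ Ioo 0 L) (θ φ : ℝ) :
    HasDerivAt (fun t => -(1 / 2) * (1 - pp n f1 r t φ ^ 2) * (sin t * B1 n r t φ))
      (dv1 n f1 r θ φ) θ := by
  have hN := (S.npos' hr θ φ).ne'
  have d1 := (hasDerivAt_const θ (f1 r)).fun_div (Nf_th S.hn r θ φ) hN
  have d2 := ((d1.fun_pow 2).const_sub 1).const_mul (-(1 / 2))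
  have d3 := d2.fun_mul ((hasDerivAt_sin θ).fun_mul (B1_th S.hn r θ φ))
  refine HasDerivAt.congr_deriv (f := fun t => -(1 / 2) * (1 - pp n f1 r t φ ^ 2)
    * (sin t * B1 n r t φ)) d3 ?_
  simp only [dv1, pp, Nat.reduceSub, pow_one, Nat.cast_ofNat]
  field_simp
  ring

theorem hasDerivAt_V2 (S : Setup L f f1 f2 n) {r : ℝ} (hr : r ∈ Ioo 0 L) (θ φ : ℝ) :
    HasDerivAt (fun t => -(1 / 2) * (1 - pp n f1 r θ t ^ 2) * B2 n r θ t)
      (dv2 n f1 r θ φ) φ := by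
  have hN := (S.npos' hr θ φ).ne'
  have d1 := (hasDerivAt_const φ (f1 r)).fun_div (Nf_ph S.hn r θ φ) hN
  have d2 := ((d1.fun_pow 2).const_sub 1).const_mul (-(1 / 2))
  have d3 := d2.fun_mul (B2_ph S.hn r θ φ)
  refine HasDerivAt.congr_deriv (f := fun t => -(1 / 2) * (1 - pp n f1 r θ t ^ 2)
    * B2 n r θ t) d3 ?_
  simp only [dv2, pp, Nat.reduceSub, pow_one, Nat.cast_ofNat]
  field_simp
  ring

theorem sph_per (θ : ℝ) : sph θ (2 * π) = sph θ 0 := by simp [sph]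
theorem eph_per : eph (2 * π) = eph 0 := by simp [eph]
theorem P_per (r θ : ℝ) : P r θ (2 * π) = P r θ 0 := by simp [P, sph_per]
theorem Nf_per (r θ : ℝ) : Nf n r θ (2 * π) = Nf n r θ 0 := by simp [Nf, P_per]
theorem B2_per (r θ : ℝ) : B2 n r θ (2 * π) = B2 n r θ 0 := by simp [B2, P_per, eph_per]

theorem SI_dv (S : Setup L f f1 f2 n) {r : ℝ} (hr : r ∈ Ioo 0 L) :
    SI (fun θ φ => dv1 n f1 r θ φ + dv2 n f1 r θ φ) = 0 := by
  rw [SI_add (S.cn_dv1.ct hr) (S.cn_dv2.ct hr),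
    SI_div1 (S.cn_dv1.ct hr) (fun θ φ => S.hasDerivAt_V1 hr θ φ) (by simp) (by simp),
    SI_div2 (S.cn_dv2.ct hr) (fun θ φ => S.hasDerivAt_V2 hr θ φ)
      (fun θ => by simp only [pp, Nf_per, B2_per]), add_zero]

theorem SI_lap (S : Setup L f f1 f2 n) {r : ℝ} (hr : r ∈ Ioo 0 L) :
    SI (fun θ φ => sin θ * (A11 n r θ φ + A22 n r θ φ)) = 0 := by
  have h1 : Ct fun θ φ => cos θ * B1 n r θ φ + sin θ * A11 n r θ φ :=
    (((cn_cos L).mul S.cn_B1).add ((cn_sin L).mul S.cn_A11)).ct hr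
  have h2 : Ct fun θ φ => sin θ * A22 n r θ φ - cos θ * B1 n r θ φ :=
    (((cn_sin L).mul S.cn_A22).sub ((cn_cos L).mul S.cn_B1)).ct hr
  have e : (fun θ φ => sin θ * (A11 n r θ φ + A22 n r θ φ)) = fun θ φ =>
      (cos θ * B1 n r θ φ + sin θ * A11 n r θ φ) + (sin θ * A22 n r θ φ - cos θ * B1 n r θ φ) := by
    funext θ φ
    ring
  rw [e, SI_add h1 h2, SI_div1 h1 (fun θ φ => (hasDerivAt_sin θ).fun_mul (B1_th S.hn r θ φ))
    (by simp) (by simp), SI_div2 h2 (fun θ φ => B2_ph S.hn r θ φ) (fun θ => B2_per r θ), add_zero]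

theorem tf_nonneg (S : Setup L f f1 f2 n) {r : ℝ} (hr : r ∈ Ioo 0 L) {θ : ℝ} (hθ : θ ∈ Icc 0 π)
    (φ : ℝ) : 0 ≤ tf n f r θ φ := by
  have h1 := S.fpos r hr
  have h2 := S.npos' hr θ φ
  have h3 := sin_nonneg_of_mem_Icc hθ
  unfold tf
  positivity

theorem SI_s2_le (S : Setup L f f1 f2 n) {r : ℝ} (hr : r ∈ Ioo 0 L) :
    SI (s2 n f f1 f2 r) ≤ SI (fun θ φ => sin θ * rad n f f1 f2 r θ φ) := by
  have h1 : Ct fun θ φ => sin θ * rad n f f1 f2 r θ φ := ((cn_sin L).mul S.cn_rad).ct hr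
  have h2 : Ct fun θ φ => (1 / f r ^ 2) * (dv1 n f1 r θ φ + dv2 n f1 r θ φ) := by
    have := (S.cn_dv1.add S.cn_dv2).ct hr
    exact Continuous.mul continuous_const this
  have h3 : Ct (tf n f r) := S.cn_tf.ct hr
  have e : s2 n f f1 f2 r = fun θ φ => (sin θ * rad n f f1 f2 r θ φ
      + (1 / f r ^ 2) * (dv1 n f1 r θ φ + dv2 n f1 r θ φ)) - tf n f r θ φ := by
    funext θ φ
    unfold s2
    ring
  have h4 : 0 ≤ SI (tf n f r) := SI_nonneg fun θ hθ φ => S.tf_nonneg hr hθ φ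
  have h12 : Ct fun θ φ => sin θ * rad n f f1 f2 r θ φ
      + (1 / f r ^ 2) * (dv1 n f1 r θ φ + dv2 n f1 r θ φ) := Continuous.add h1 h2
  rw [e, SI_sub h12 h3, SI_add h1 h2, SI_const_mul, S.SI_dv hr]
  linarith

theorem SI_s1 (S : Setup L f f1 f2 n) {r : ℝ} (hr : r ∈ Ioo 0 L) :
    SI (s1 n f f1 f2 r) = SI (fun θ φ => sin θ * (1 / 2 * (1 - pp n f1 r θ φ ^ 2) * Nf n r θ φ
      - f r * pq n f1 f2 r θ φ)) := by
  have h1 : Ct fun θ φ => sin θ * (1 / 2 * (1 - pp n f1 r θ φ ^ 2) * Nf n r θ φ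
      - f r * pq n f1 f2 r θ φ) :=
    ((cn_sin L).mul ((((Cn.const L (1 / 2)).mul S.cn_one).mul S.cn_Nf).sub
      (S.cn_f.mul S.cn_pq))).ct hr
  have h2 : Ct fun θ φ => (1 / 2 : ℝ) * (sin θ * (A11 n r θ φ + A22 n r θ φ)) := by
    have := S.cn_lapl.ct hr
    exact Continuous.mul continuous_const this
  show SI (fun θ φ => _ - _) = _
  rw [SI_sub h1 h2, SI_const_mul, S.SI_lap hr]
  ring

/-- The pointwise inequality for the volume. -/
theorem ptV (S : Setup L f f1 f2 n) {m : ℝ} (hm : 0 < m) {s : ℝ} (hs : s = 1 ∨ s = -1) {r : ℝ}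
    (hr : r ∈ Ioo 0 L) (hfm : f r ≤ m) {θ φ : ℝ} (hp : |pp n f1 r θ φ| ≤ 1) :
    rad n f f1 f2 r θ φ + 1 / (4 * m ^ 4) * (Nf n r θ φ * f r ^ 2)
      ≤ dTh n f f1 f2 m 0 s r θ φ := by
  have hf := S.fpos r hr
  have hN := S.npos' hr θ φ
  have hq := qq_sq hm hf.le hfm
  have hg := gg_eq hm hf hfm
  have hf1 : f1 r = pp n f1 r θ φ * Nf n r θ φ := by
    rw [pp]
    field_simp
  have hsp : |s * pp n f1 r θ φ| ≤ 1 := by
    rcases hs with rfl | rfl <;> simpa using hp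
  have hs2 : s ^ 2 = 1 := by rcases hs with rfl | rfl <;> norm_num
  have key := ineqV hsp (qq_nonneg m (f r)) (qq_le_one m (f r))
  have e : (s * pp n f1 r θ φ) ^ 2 = pp n f1 r θ φ ^ 2 := by rw [mul_pow, hs2, one_mul]
  rw [e] at key
  have hk := mul_le_mul_of_nonneg_left key (show 0 ≤ Nf n r θ φ / f r ^ 2 by positivity)
  have e1 : 1 / (4 * m ^ 4) * (Nf n r θ φ * f r ^ 2)
      = Nf n r θ φ / f r ^ 2 * ((1 - qq m (f r) ^ 2) ^ 2 / 4) := by
    rw [hq]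
    field_simp
    ring
  have e2 : dTh n f f1 f2 m 0 s r θ φ = -(1 - pp n f1 r θ φ ^ 2) * pq n f1 f2 r θ φ / f r
      + Nf n r θ φ / f r ^ 2 * (s * pp n f1 r θ φ * (Fp (qq m (f r)) - Fp (s * pp n f1 r θ φ))) := by
    have e3 : s * f1 r = Nf n r θ φ * (s * pp n f1 r θ φ) := by
      rw [hf1]
      ring
    rw [dTh, hg, e3]
    ring
  rw [e1, e2, rad]
  have e4 : (1 - pp n f1 r θ φ ^ 2) ^ 2 * Nf n r θ φ / (4 * f r ^ 2)
      = Nf n r θ φ / f r ^ 2 * ((1 - pp n f1 r θ φ ^ 2) ^ 2 / 4) := by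
    field_simp
  rw [e4]
  nlinarith [hk]

/-- The pointwise inequality for the total scalar curvature. -/
theorem ptY (S : Setup L f f1 f2 n) {m : ℝ} (hm : 0 < m) {s : ℝ} (hs : s = 1 ∨ s = -1) {r : ℝ}
    (hr : r ∈ Ioo 0 L) (hfm : f r ≤ m) {θ φ : ℝ} (hp : |pp n f1 r θ φ| ≤ 1) :
    rad n f f1 f2 r θ φ + 1 / (2 * m ^ 2) * (1 / 2 * (1 - pp n f1 r θ φ ^ 2) * Nf n r θ φ
      - f r * pq n f1 f2 r θ φ) ≤ dTh n f f1 f2 m (1 / (2 * m ^ 2)) s r θ φ := by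
  have hf := S.fpos r hr
  have hN := S.npos' hr θ φ
  have hq := qq_sq hm hf.le hfm
  have hg := gg_eq hm hf hfm
  have hf1 : f1 r = pp n f1 r θ φ * Nf n r θ φ := by
    rw [pp]
    field_simp
  have hsp : |s * pp n f1 r θ φ| ≤ 1 := by
    rcases hs with rfl | rfl <;> simpa using hp
  have hs2 : s ^ 2 = 1 := by rcases hs with rfl | rfl <;> norm_num
  have key := ineqY hsp (qq_nonneg m (f r)) (qq_le_one m (f r))
  have e : (s * pp n f1 r θ φ) ^ 2 = pp n f1 r θ φ ^ 2 := by rw [mul_pow, hs2, one_mul]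
  rw [e] at key
  have hk := mul_le_mul_of_nonneg_left key (show 0 ≤ Nf n r θ φ / f r ^ 2 by positivity)
  have hmu : 1 / (2 * m ^ 2) = (1 - qq m (f r) ^ 2) / (2 * f r ^ 2) := by
    rw [hq]
    field_simp
    ring
  have e2 : dTh n f f1 f2 m (1 / (2 * m ^ 2)) s r θ φ
      = -(1 - pp n f1 r θ φ ^ 2) * pq n f1 f2 r θ φ / f r
      + Nf n r θ φ / f r ^ 2 * (s * pp n f1 r θ φ * (Fp (qq m (f r)) - Fp (s * pp n f1 r θ φ))
        + (1 - qq m (f r) ^ 2) / 2 * (s * pp n f1 r θ φ * qq m (f r)))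
      - 1 / (2 * m ^ 2) * (f r * pq n f1 f2 r θ φ)
      - Nf n r θ φ / f r ^ 2 * ((1 - qq m (f r) ^ 2) / 2 * pp n f1 r θ φ ^ 2) := by
    have e3 : s * f1 r = Nf n r θ φ * (s * pp n f1 r θ φ) := by
      rw [hf1]
      ring
    have e5 : f1 r * pp n f1 r θ φ = Nf n r θ φ * pp n f1 r θ φ ^ 2 := by
      nth_rewrite 1 [hf1]
      ring
    rw [dTh, hg, e3, e5, hmu]
    field_simp
    ring
  rw [e2, rad]
  have e4 : (1 - pp n f1 r θ φ ^ 2) ^ 2 * Nf n r θ φ / (4 * f r ^ 2)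
      = Nf n r θ φ / f r ^ 2 * ((1 - pp n f1 r θ φ ^ 2) ^ 2 / 4) := by
    field_simp
  have e6 : 1 / (2 * m ^ 2) * (1 / 2 * (1 - pp n f1 r θ φ ^ 2) * Nf n r θ φ
      - f r * pq n f1 f2 r θ φ) = Nf n r θ φ / f r ^ 2 * ((1 - qq m (f r) ^ 2)
        * (1 - pp n f1 r θ φ ^ 2) / 4) - 1 / (2 * m ^ 2) * (f r * pq n f1 f2 r θ φ) := by
    rw [mul_sub]
    congr 1
    rw [hmu]
    field_simp
    ring
  rw [e4, e6]
  nlinarith [hk]

/-- The calibration on an interval. -/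
theorem half (S : Setup L f f1 f2 n) {m c : ℝ} (hm : 0 < m) {W : ℝ → ℝ}
    (H : ∀ s : ℝ, (s = 1 ∨ s = -1) → ∀ r ∈ Ioo 0 L,
      W r ≤ SI (fun θ φ => sin θ * dTh n f f1 f2 m c s r θ φ))
    (s : ℝ) (hs : s = 1 ∨ s = -1) {a b : ℝ} (hW : IntervalIntegrable W volume a b)
    (hab : a ≤ b) (ha : 0 < a) (hb : b < L) :
    ∫ r in a..b, W r ≤ SI (fun θ φ => sin θ * Th n f f1 m c s b θ φ)
      - SI (fun θ φ => sin θ * Th n f f1 m c s a θ φ) := by
  have cT := fun s => (cn_sin L).mul (S.cn_Th hm c s)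
  have cD := fun s => (cn_sin L).mul (S.cn_dTh hm c s)
  have hs2 : s ^ 2 = 1 := by rcases hs with rfl | rfl <;> norm_num
  rw [← SI_ftc (cT s) (cD s) hab ha hb fun r hr θ φ =>
    (S.hasDerivAt_Th hm c hs2 hr θ φ).const_mul (sin θ)]
  refine integral_mono_on hab hW ((cD s).intervalIntegrable hab ha hb) fun r hr => ?_
  exact H s hs r ⟨ha.trans_le hr.1, hr.2.trans_lt hb⟩

/-- The potential at a critical point of `f`. -/
theorem SI_Th_crit {m c r0 : ℝ} (hf1r0 : f1 r0 = 0) (s : ℝ) :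
    SI (fun θ φ => sin θ * Th n f f1 m c s r0 θ φ)
      = 4 * π * (s * (2 / 3 / f r0 + GG m c (f r0))) := by
  have : (fun θ φ => sin θ * Th n f f1 m c s r0 θ φ)
      = fun θ φ => s * (2 / 3 / f r0 + GG m c (f r0)) * sin θ := by
    funext θ φ
    simp [Th, pp, hf1r0, Fp]
    ring
  rw [this, SI_const_mul, SI_sin]
  ring

/-- The calibration. -/
theorem master (S : Setup L f f1 f2 n) (hp : ∀ r ∈ Ioo 0 L, ∀ θ φ, |pp n f1 r θ φ| ≤ 1)
    (f0 : f 0 = 0) (fL : f L = 0)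
    {m r0 : ℝ} (hm : 0 < m) (hr0 : r0 ∈ Ioo 0 L) (hfr0 : f r0 = m) (hf1r0 : f1 r0 = 0)
    (c : ℝ) (hc : 0 ≤ c) (W : ℝ → ℝ) (hW : IntervalIntegrable W volume 0 L)
    (H : ∀ s : ℝ, (s = 1 ∨ s = -1) → ∀ r ∈ Ioo 0 L,
      W r ≤ SI (fun θ φ => sin θ * dTh n f f1 f2 m c s r θ φ)) :
    ∫ r in (0 : ℝ)..L, W r ≤ 4 * π * (4 / 3 / m + 2 * GG m c m) := by
  have cT := fun s => (cn_sin L).mul (S.cn_Th hm c s)
  refine le_of_inner S.hL hW (e := fun ε => 4 * π * (c * (f ε + f (L - ε)))) ?_ ?_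
  · have h1 : Tendsto (fun ε => 4 * π * (c * (f ε + f (L - ε)))) (𝓝 0)
        (𝓝 (4 * π * (c * (f 0 + f (L - 0))))) := by
      have := S.cf
      exact Continuous.tendsto (by fun_prop) 0
    rw [sub_zero, f0, fL] at h1
    have h2 := h1.mono_left (nhdsWithin_le_nhds (s := Ioi (0 : ℝ)))
    simpa using h2
  · have n1 : ∀ᶠ ε in 𝓝[>] (0 : ℝ), ε < r0 := (gt_mem_nhds hr0.1).filter_mono nhdsWithin_le_nhds
    have n2 : ∀ᶠ ε in 𝓝[>] (0 : ℝ), ε < L - r0 :=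
      (gt_mem_nhds (by linarith [hr0.2])).filter_mono nhdsWithin_le_nhds
    filter_upwards [self_mem_nhdsWithin, n1, n2] with ε h0 h1 h2
    have h0' : (0 : ℝ) < ε := h0
    have hεL : ε ∈ Ioo 0 L := ⟨h0', h1.trans hr0.2⟩
    have hεL' : L - ε ∈ Ioo 0 L := ⟨by linarith [hr0.1], by linarith⟩
    have i1 : IntervalIntegrable W volume ε r0 := hW.mono_set (by
      rw [uIcc_of_le h1.le, uIcc_of_le S.hL.le]
      exact Icc_subset_Icc h0'.le hr0.2.le)
    have i2 : IntervalIntegrable W volume r0 (L - ε) := hW.mono_set (by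
      rw [uIcc_of_le (by linarith), uIcc_of_le S.hL.le]
      exact Icc_subset_Icc hr0.1.le (by linarith))
    rw [← integral_add_adjacent_intervals i1 i2]
    have A1 := S.half hm H 1 (Or.inl rfl) i1 h1.le h0' hr0.2
    have A2 := S.half hm H (-1) (Or.inr rfl) i2 (by linarith) hr0.1 (by linarith)
    -- the ends
    have E1 : 4 * π * (-(c * f ε)) ≤ SI (fun θ φ => sin θ * Th n f f1 m c 1 ε θ φ) := by
      have e : 4 * π * (-(c * f ε)) = SI (fun θ _ => -(c * f ε) * sin θ) := by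
        rw [SI_const_mul, SI_sin]
        ring
      rw [e]
      refine SI_mono (Continuous.mul continuous_const (continuous_sin.comp continuous_fst))
        ((cT 1).ct hεL) fun θ hθ φ => ?_
      have hs := sin_nonneg_of_mem_Icc hθ
      have hpε := hp ε hεL θ φ
      have hfε := S.fpos ε hεL
      have hF := Fp_nonneg hpε
      have hG := GG_nonneg hm hc hfε.le
      have : -(c * f ε) ≤ Th n f f1 m c 1 ε θ φ := by
        rw [Th, one_mul, one_mul]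
        have h3 : 0 ≤ Fp (pp n f1 ε θ φ) / f ε := by positivity
        have h4 : c * (f ε * pp n f1 ε θ φ) ≤ c * f ε := by
          have := (abs_le.mp hpε).2
          have h5 : f ε * pp n f1 ε θ φ ≤ f ε := by nlinarith
          exact mul_le_mul_of_nonneg_left h5 hc
        linarith
      calc -(c * f ε) * sin θ = sin θ * -(c * f ε) := by ring
        _ ≤ _ := mul_le_mul_of_nonneg_left this hs
    have E2 : SI (fun θ φ => sin θ * Th n f f1 m c (-1) (L - ε) θ φ)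
        ≤ 4 * π * (c * f (L - ε)) := by
      have e : 4 * π * (c * f (L - ε)) = SI (fun θ _ => (c * f (L - ε)) * sin θ) := by
        rw [SI_const_mul, SI_sin]
        ring
      rw [e]
      refine SI_mono ((cT (-1)).ct hεL')
        (Continuous.mul continuous_const (continuous_sin.comp continuous_fst)) fun θ hθ φ => ?_
      have hs := sin_nonneg_of_mem_Icc hθ
      have hpε := hp (L - ε) hεL' θ φ
      have hfε := S.fpos (L - ε) hεL'
      have hF : 0 ≤ Fp (-1 * pp n f1 (L - ε) θ φ) := Fp_nonneg (by simpa using hpε)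
      have hG := GG_nonneg hm hc hfε.le
      have : Th n f f1 m c (-1) (L - ε) θ φ ≤ c * f (L - ε) := by
        rw [Th]
        have h3 : 0 ≤ Fp (-1 * pp n f1 (L - ε) θ φ) / f (L - ε) := by positivity
        have h4 : -(c * (f (L - ε) * pp n f1 (L - ε) θ φ)) ≤ c * f (L - ε) := by
          have := (abs_le.mp hpε).1
          have h5 : -(f (L - ε) * pp n f1 (L - ε) θ φ) ≤ f (L - ε) := by nlinarith
          have := mul_le_mul_of_nonneg_left h5 hc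
          linarith
        linarith
      calc sin θ * Th n f f1 m c (-1) (L - ε) θ φ ≤ sin θ * (c * f (L - ε)) :=
            mul_le_mul_of_nonneg_left this hs
        _ = _ := by ring
    rw [SI_Th_crit hf1r0, hfr0] at A1
    rw [SI_Th_crit hf1r0, hfr0] at A2
    have e3 : 4 * π * (4 / 3 / m + 2 * GG m c m) + 4 * π * (c * (f ε + f (L - ε)))
        = 4 * π * (1 * (2 / 3 / m + GG m c m)) - 4 * π * (-1 * (2 / 3 / m + GG m c m))
          + 4 * π * (c * f (L - ε)) - 4 * π * (-(c * f ε)) := by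
      ring
    show _ ≤ 4 * π * (4 / 3 / m + 2 * GG m c m) + 4 * π * (c * (f ε + f (L - ε)))
    rw [e3]
    linarith

/-- The calibration from a minimum of `f` to the next one. -/
theorem masterP (S : Setup L f f1 f2 n)
    {m r0 a b : ℝ} (hm : 0 < m) (hfr0 : f r0 = m) (hf1r0 : f1 r0 = 0)
    (ha : a ∈ Ioo 0 L) (hb : b ∈ Ioo 0 L) (har : a ≤ r0) (hrb : r0 ≤ b) (hfa : f1 a = 0)
    (hfb : f1 b = 0)
    (c : ℝ) (hc : 0 ≤ c) (W : ℝ → ℝ) (hW : IntervalIntegrable W volume a b)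
    (H : ∀ s : ℝ, (s = 1 ∨ s = -1) → ∀ r ∈ Ioo 0 L,
      W r ≤ SI (fun θ φ => sin θ * dTh n f f1 f2 m c s r θ φ)) :
    ∫ r in a..b, W r ≤ 4 * π * (4 / 3 / m + 2 * GG m c m) := by
  have i1 : IntervalIntegrable W volume a r0 := hW.mono_set (by
    rw [uIcc_of_le har, uIcc_of_le (har.trans hrb)]
    exact Icc_subset_Icc le_rfl hrb)
  have i2 : IntervalIntegrable W volume r0 b := hW.mono_set (by
    rw [uIcc_of_le hrb, uIcc_of_le (har.trans hrb)]
    exact Icc_subset_Icc har le_rfl)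
  rw [← integral_add_adjacent_intervals i1 i2]
  have A1 := S.half hm H 1 (Or.inl rfl) i1 har ha.1 (hrb.trans_lt hb.2)
  have A2 := S.half hm H (-1) (Or.inr rfl) i2 hrb (ha.1.trans_le har) hb.2
  rw [SI_Th_crit hf1r0, SI_Th_crit hfa, hfr0] at A1
  rw [SI_Th_crit hf1r0, SI_Th_crit hfb, hfr0] at A2
  have h1 := S.fpos a ha
  have h2 := S.fpos b hb
  have h3 := GG_nonneg hm hc h1.le
  have h4 := GG_nonneg hm hc h2.le
  have h5 : 0 ≤ 4 * π * (1 * (2 / 3 / f a + GG m c (f a))) := by positivity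
  have h6 : 0 ≤ 4 * π * (1 * (2 / 3 / f b + GG m c (f b))) := by positivity
  have e3 : 4 * π * (4 / 3 / m + 2 * GG m c m)
      = 4 * π * (1 * (2 / 3 / m + GG m c m)) - 4 * π * (-1 * (2 / 3 / m + GG m c m)) := by
    ring
  have e4 : 4 * π * (-1 * (2 / 3 / f b + GG m c (f b)))
      = -(4 * π * (1 * (2 / 3 / f b + GG m c (f b)))) := by
    ring
  rw [e3]
  rw [e4] at A2
  linarith

end Setup

end

end Pool.Agent.Lib_helper94.QS
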