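import Mathlib

/-!
# The potential

One-variable facts: the functions `Fp`, `q`, `g` and the integral of `g`, and the two pointwise
inequalities of the calibration.
-/

set_option autoImplicit false

namespace Pool.Agent.Lib_helper94.QS

open Real MeasureTheory intervalIntegral Set

noncomputable section

/-- `Fp x = 2/3 - x + x³/3 = (1 - x)² (2 + x) / 3`. -/
def Fp (x : ℝ) : ℝ := 2 / 3 - x + x ^ 3 / 3

theorem Fp_nonneg {x : ℝ} (h : |x| ≤ 1) : 0 ≤ Fp x := by
  have h1 := abs_le.mp h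
  have : Fp x = (1 - x) ^ 2 * (2 + x) / 3 := by unfold Fp; ring
  rw [this]
  have : 0 ≤ 2 + x := by linarith [h1.1]
  positivity

theorem ineqV {p q : ℝ} (hp : |p| ≤ 1) (hq0 : 0 ≤ q) (hq1 : q ≤ 1) :
    -(1 - p ^ 2) ^ 2 / 4 + (1 - q ^ 2) ^ 2 / 4 ≤ p * (Fp q - Fp p) := by
  obtain ⟨h1, h2⟩ := abs_le.mp hp
  have key : p * (Fp q - Fp p) - (-(1 - p ^ 2) ^ 2 / 4 + (1 - q ^ 2) ^ 2 / 4)
      = (p - q) ^ 2 * (6 - (p ^ 2 + 2 * p * q + 3 * q ^ 2)) / 12 := by
    unfold Fp; ring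
  have : 0 ≤ 6 - (p ^ 2 + 2 * p * q + 3 * q ^ 2) := by nlinarith
  have h3 : 0 ≤ (p - q) ^ 2 * (6 - (p ^ 2 + 2 * p * q + 3 * q ^ 2)) / 12 := by positivity
  linarith

theorem ineqY {p q : ℝ} (hp : |p| ≤ 1) (hq0 : 0 ≤ q) (hq1 : q ≤ 1) :
    -(1 - p ^ 2) ^ 2 / 4 + (1 - q ^ 2) * (1 + p ^ 2) / 4
      ≤ p * (Fp q - Fp p) + (1 - q ^ 2) / 2 * (p * q) := by
  obtain ⟨h1, h2⟩ := abs_le.mp hp
  have key : p * (Fp q - Fp p) + (1 - q ^ 2) / 2 * (p * q)
      - (-(1 - p ^ 2) ^ 2 / 4 + (1 - q ^ 2) * (1 + p ^ 2) / 4)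
      = (p - q) ^ 2 * (3 - p ^ 2 - 2 * p * q) / 12 := by
    unfold Fp; ring
  have : 0 ≤ 3 - p ^ 2 - 2 * p * q := by nlinarith
  have h3 : 0 ≤ (p - q) ^ 2 * (3 - p ^ 2 - 2 * p * q) / 12 := by positivity
  linarith

/-- `q(x) = √(1 - x²/m²)`. -/
def qq (m x : ℝ) : ℝ := √(1 - x ^ 2 / m ^ 2)

def gg (m x : ℝ) : ℝ := x ^ 2 * (2 + qq m x) / (3 * m ^ 4 * (1 + qq m x) ^ 2)

theorem qq_nonneg (m x : ℝ) : 0 ≤ qq m x := sqrt_nonneg _

theorem qq_le_one (m x : ℝ) : qq m x ≤ 1 := by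
  unfold qq
  have : 0 ≤ x ^ 2 / m ^ 2 := by positivity
  calc √(1 - x ^ 2 / m ^ 2) ≤ √1 := sqrt_le_sqrt (by linarith)
    _ = 1 := sqrt_one

theorem continuous_qq {m : ℝ} (_hm : 0 < m) : Continuous (qq m) := by
  unfold qq
  fun_prop

theorem continuous_gg {m : ℝ} (hm : 0 < m) : Continuous (gg m) := by
  unfold gg
  have := continuous_qq hm
  refine Continuous.div (by fun_prop) (by fun_prop) fun x => ?_
  have := qq_nonneg m x
  positivity

theorem gg_nonneg {m : ℝ} (hm : 0 < m) (x : ℝ) : 0 ≤ gg m x := by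
  have := qq_nonneg m x
  unfold gg
  positivity

theorem qq_sq {m x : ℝ} (hm : 0 < m) (hx0 : 0 ≤ x) (hx : x ≤ m) :
    qq m x ^ 2 = 1 - x ^ 2 / m ^ 2 := by
  unfold qq
  rw [sq_sqrt]
  have : x ^ 2 / m ^ 2 ≤ 1 := by
    rw [div_le_one (by positivity)]
    nlinarith
  linarith

theorem gg_eq {m x : ℝ} (hm : 0 < m) (hx0 : 0 < x) (hx : x ≤ m) :
    gg m x = Fp (qq m x) / x ^ 2 := by
  have h := qq_sq hm hx0.le hx
  have h0 := qq_nonneg m x
  have hx2 : x ^ 2 = (1 - qq m x ^ 2) * m ^ 2 := by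
    rw [h]
    field_simp
    ring
  have e : Fp (qq m x) = (1 - qq m x) ^ 2 * (2 + qq m x) / 3 := by unfold Fp; ring
  rw [e, gg, div_eq_div_iff (by positivity) (by positivity)]
  have h4 : x ^ 2 * x ^ 2 = (1 - qq m x) ^ 2 * (1 + qq m x) ^ 2 * m ^ 4 := by
    rw [hx2]; ring
  calc x ^ 2 * (2 + qq m x) * x ^ 2 = (2 + qq m x) * (x ^ 2 * x ^ 2) := by ring
    _ = _ := by rw [h4]; ring

/-- The primitive with parameter `c`. -/
def GG (m c x : ℝ) : ℝ := ∫ t in (0 : ℝ)..x, (gg m t + c * qq m t)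

theorem hasDerivAt_GG {m : ℝ} (hm : 0 < m) (c x : ℝ) :
    HasDerivAt (GG m c) (gg m x + c * qq m x) x := by
  have hc : Continuous fun t => gg m t + c * qq m t :=
    (continuous_gg hm).add ((continuous_qq hm).const_mul c)
  exact integral_hasDerivAt_right (hc.intervalIntegrable _ _)
    (hc.stronglyMeasurableAtFilter _ _) hc.continuousAt

theorem continuous_GG {m : ℝ} (hm : 0 < m) (c : ℝ) : Continuous (GG m c) :=
  continuous_iff_continuousAt.mpr fun x => (hasDerivAt_GG hm c x).continuousAt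

theorem GG_nonneg {m c x : ℝ} (hm : 0 < m) (hc : 0 ≤ c) (hx : 0 ≤ x) : 0 ≤ GG m c x := by
  refine integral_nonneg hx fun t _ => ?_
  have := gg_nonneg hm t
  have := qq_nonneg m t
  positivity

theorem integral_gg {m : ℝ} (hm : 0 < m) : ∫ t in (0 : ℝ)..m, gg m t = (π / 4 - 2 / 3) / m := by
  set H : ℝ → ℝ := fun x => 1 / (2 * m) * (arcsin (x / m) - x / m * qq m x)
    - x ^ 3 * (2 + qq m x) / (3 * m ^ 4 * (1 + qq m x) ^ 2) with hH
  have hcH : Continuous H := by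
    have h1 := continuous_qq hm
    have h2 : Continuous fun x : ℝ => arcsin (x / m) := continuous_arcsin.comp (by fun_prop)
    refine Continuous.sub (by fun_prop) (Continuous.div (by fun_prop) (by fun_prop) fun x => ?_)
    have := qq_nonneg m x
    positivity
  have hd : ∀ x ∈ Ioo (0 : ℝ) m, HasDerivAt H (gg m x) x := by
    rintro x ⟨hx0, hxm⟩
    have hxm1 : x / m < 1 := by rwa [div_lt_one hm]
    have hxm0 : 0 < x / m := by positivity
    have hpos : 0 < 1 - x ^ 2 / m ^ 2 := by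
      rw [← div_pow]
      nlinarith
    have hq : 0 < qq m x := sqrt_pos.mpr hpos
    have hq2 := qq_sq hm hx0.le hxm.le
    have d1 : HasDerivAt (fun x : ℝ => x / m) (1 / m) x := by
      simpa using (hasDerivAt_id x).div_const m
    have d2 : HasDerivAt (fun x : ℝ => arcsin (x / m)) (1 / √(1 - (x / m) ^ 2) * (1 / m)) x :=
      (hasDerivAt_arcsin (by linarith) (by linarith)).comp x d1
    have d3 : HasDerivAt (fun x : ℝ => 1 - x ^ 2 / m ^ 2) (-(2 * x / m ^ 2)) x := by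
      have := ((hasDerivAt_id x).fun_pow 2).div_const (m ^ 2)
      simpa using this.const_sub 1
    have d4 : HasDerivAt (qq m) (-(2 * x / m ^ 2) / (2 * qq m x)) x := d3.sqrt hpos.ne'
    have d5 : HasDerivAt (fun x => x ^ 3 * (2 + qq m x)) (3 * x ^ 2 * (2 + qq m x)
        + x ^ 3 * (-(2 * x / m ^ 2) / (2 * qq m x))) x := by
      have := ((hasDerivAt_id x).fun_pow 3).fun_mul (d4.const_add 2)
      simpa using this
    have d6 : HasDerivAt (fun x => 3 * m ^ 4 * (1 + qq m x) ^ 2)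
        (3 * m ^ 4 * (2 * (1 + qq m x) * (-(2 * x / m ^ 2) / (2 * qq m x)))) x := by
      have := ((d4.const_add 1).fun_pow 2).const_mul (3 * m ^ 4)
      simpa using this
    have hne : 3 * m ^ 4 * (1 + qq m x) ^ 2 ≠ 0 := by positivity
    have d7 := ((d2.fun_sub (d1.fun_mul d4)).const_mul (1 / (2 * m))).fun_sub (d5.fun_div d6 hne)
    refine d7.congr_deriv ?_
    have hs : √(1 - (x / m) ^ 2) = qq m x := by rw [qq, div_pow]
    rw [hs, gg]
    have hx2 : x ^ 2 = (1 - qq m x ^ 2) * m ^ 2 := by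
      rw [hq2]
      field_simp
      ring
    generalize qq m x = u at *
    have hx4 : x ^ 4 = (1 - u ^ 2) ^ 2 * m ^ 4 := by
      rw [show x ^ 4 = (x ^ 2) ^ 2 by ring, hx2]; ring
    field_simp
    ring_nf
    rw [hx4, hx2]
    ring
  have := integral_eq_sub_of_hasDerivAt_of_le hm.le hcH.continuousOn hd
    ((continuous_gg hm).intervalIntegrable _ _)
  rw [this]
  have hq0 : qq m 0 = 1 := by simp [qq]
  have hqm : qq m m = 0 := by
    unfold qq
    rw [div_self (by positivity)]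
    simp
  simp only [hH, hq0, hqm, div_self hm.ne', arcsin_one]
  simp
  field_simp
  ring

theorem integral_qq {m : ℝ} (hm : 0 < m) : ∫ t in (0 : ℝ)..m, qq m t = m * π / 4 := by
  have h1 : ∫ x in (0 : ℝ)..1, √(1 - x ^ 2 : ℝ) = π / 4 := by
    have h2 := integral_sqrt_one_sub_sq
    have hc : Continuous fun x : ℝ => √(1 - x ^ 2) := by fun_prop
    have h3 := integral_add_adjacent_intervals (hc.intervalIntegrable (-1) 0)
      (hc.intervalIntegrable 0 1) (μ := volume)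
    have h4 : ∫ x in (-1 : ℝ)..0, √(1 - x ^ 2 : ℝ) = ∫ x in (0 : ℝ)..1, √(1 - x ^ 2 : ℝ) := by
      have := integral_comp_neg (fun x : ℝ => √(1 - x ^ 2)) (a := 0) (b := 1)
      simp only [neg_sq, neg_zero] at this
      exact this.symm
    linarith
  have h5 := integral_comp_div (fun x : ℝ => √(1 - x ^ 2)) hm.ne' (a := 0) (b := m)
  rw [zero_div, div_self hm.ne', h1] at h5
  have h6 : (fun x => √(1 - (x / m) ^ 2)) = qq m := by
    funext x
    rw [qq, div_pow]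
  rw [show (∫ t in (0 : ℝ)..m, qq m t) = ∫ t in (0 : ℝ)..m, √(1 - (t / m) ^ 2) by rw [← h6], h5]
  simp
  ring

theorem GG_top {m : ℝ} (hm : 0 < m) (c : ℝ) : GG m c m = (π / 4 - 2 / 3) / m + c * (m * π / 4) := by
  rw [GG, integral_add ((continuous_gg hm).intervalIntegrable _ _)
    (((continuous_qq hm).const_mul c).intervalIntegrable _ _), integral_gg hm,
    intervalIntegral.integral_const_mul, integral_qq hm]

end

end Pool.Agent.Lib_helper94.QS
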