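import Mathlib

/-!
# Integrals over the sphere in polar coordinates, with a parameter
-/

set_option autoImplicit false

namespace Pool.Agent.Lib_helper94.QS

open Real MeasureTheory intervalIntegral Set Filter Topology

noncomputable section

/-- The integral over the coordinate domain of the sphere. -/
def SI (g : ℝ → ℝ → ℝ) : ℝ := ∫ θ in (0 : ℝ)..π, ∫ φ in (0 : ℝ)..(2 * π), g θ φ

/-- Joint continuity. -/
def Ct (g : ℝ → ℝ → ℝ) : Prop := Continuous fun z : ℝ × ℝ => g z.1 z.2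

variable {g h : ℝ → ℝ → ℝ}

theorem Ct.right (hg : Ct g) (θ : ℝ) : Continuous fun φ => g θ φ :=
  Continuous.comp (f := fun φ : ℝ => (θ, φ)) hg (by fun_prop)

theorem Ct.left (hg : Ct g) (φ : ℝ) : Continuous fun θ => g θ φ :=
  Continuous.comp (f := fun θ : ℝ => (θ, φ)) hg (by fun_prop)

theorem Ct.inner (hg : Ct g) (a b : ℝ) : Continuous fun θ => ∫ φ in a..b, g θ φ :=
  continuous_parametric_intervalIntegral_of_continuous' hg a b

theorem SI_add (hg : Ct g) (hh : Ct h) : SI (fun θ φ => g θ φ + h θ φ) = SI g + SI h := by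
  unfold SI
  rw [← intervalIntegral.integral_add ((hg.inner _ _).intervalIntegrable _ _)
    ((hh.inner _ _).intervalIntegrable _ _)]
  congr 1
  funext θ
  exact intervalIntegral.integral_add ((hg.right θ).intervalIntegrable _ _)
    ((hh.right θ).intervalIntegrable _ _)

theorem SI_const_mul (c : ℝ) (g : ℝ → ℝ → ℝ) : SI (fun θ φ => c * g θ φ) = c * SI g := by
  unfold SI
  simp only [intervalIntegral.integral_const_mul]

theorem SI_sub (hg : Ct g) (hh : Ct h) : SI (fun θ φ => g θ φ - h θ φ) = SI g - SI h := by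
  have h1 : Ct fun θ φ => (-1 : ℝ) * h θ φ := Continuous.mul continuous_const hh
  have := SI_add hg h1
  rw [SI_const_mul] at this
  calc SI (fun θ φ => g θ φ - h θ φ) = SI (fun θ φ => g θ φ + -1 * h θ φ) := by
        congr 1; funext θ φ; ring
    _ = SI g - SI h := by rw [this]; ring

theorem SI_mono (hg : Ct g) (hh : Ct h) (H : ∀ θ ∈ Icc 0 π, ∀ φ, g θ φ ≤ h θ φ) :
    SI g ≤ SI h := by
  refine integral_mono_on pi_pos.le ((hg.inner _ _).intervalIntegrable _ _)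
    ((hh.inner _ _).intervalIntegrable _ _) fun θ hθ => ?_
  exact integral_mono_on (by positivity) ((hg.right θ).intervalIntegrable _ _)
    ((hh.right θ).intervalIntegrable _ _) fun φ _ => H θ hθ φ

theorem SI_congr (H : ∀ θ ∈ Ioo 0 π, ∀ φ, g θ φ = h θ φ) : SI g = SI h := by
  unfold SI
  rw [intervalIntegral.integral_of_le pi_pos.le, intervalIntegral.integral_of_le pi_pos.le,
    integral_Ioc_eq_integral_Ioo, integral_Ioc_eq_integral_Ioo]
  refine setIntegral_congr_fun measurableSet_Ioo fun θ hθ => ?_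
  show (∫ φ in (0 : ℝ)..(2 * π), g θ φ) = ∫ φ in (0 : ℝ)..(2 * π), h θ φ
  congr 1
  funext φ
  exact H θ hθ φ

theorem SI_sin : SI (fun θ _ => sin θ) = 4 * π := by
  unfold SI
  simp
  ring

theorem SI_nonneg (H : ∀ θ ∈ Icc 0 π, ∀ φ, 0 ≤ g θ φ) : 0 ≤ SI g := by
  refine integral_nonneg pi_pos.le fun θ hθ => ?_
  exact integral_nonneg (by positivity) fun φ _ => H θ hθ φ

theorem swap (hg : Ct g) (a b c d : ℝ) :
    ∫ x in a..b, ∫ y in c..d, g x y = ∫ y in c..d, ∫ x in a..b, g x y := by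
  refine intervalIntegral_intervalIntegral_swap ?_
  have hK : IsCompact (uIcc a b ×ˢ uIcc c d) := isCompact_uIcc.prod isCompact_uIcc
  have : IntegrableOn (Function.uncurry g) (uIcc a b ×ˢ uIcc c d) :=
    (show Continuous (Function.uncurry g) from hg).continuousOn.integrableOn_compact hK
  exact this.mono_set (prod_mono uIoc_subset_uIcc uIoc_subset_uIcc)

/-- The integral of a derivative with respect to `θ` of a function that vanishes at the poles. -/
theorem SI_div1 (hg : Ct g) {V : ℝ → ℝ → ℝ} (hV : ∀ θ φ, HasDerivAt (fun t => V t φ) (g θ φ) θ)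
    (h0 : ∀ φ, V 0 φ = 0) (h1 : ∀ φ, V π φ = 0) : SI g = 0 := by
  unfold SI
  rw [swap hg]
  have : ∀ φ, ∫ θ in (0 : ℝ)..π, g θ φ = 0 := by
    intro φ
    rw [integral_eq_sub_of_hasDerivAt (fun θ _ => hV θ φ) ((hg.left φ).intervalIntegrable _ _),
      h0, h1, sub_zero]
  simp [this]

/-- The integral of a derivative with respect to `φ` of a periodic function. -/
theorem SI_div2 (hg : Ct g) {V : ℝ → ℝ → ℝ} (hV : ∀ θ φ, HasDerivAt (fun t => V θ t) (g θ φ) φ)
    (h0 : ∀ θ, V θ (2 * π) = V θ 0) : SI g = 0 := by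
  unfold SI
  have : ∀ θ, ∫ φ in (0 : ℝ)..(2 * π), g θ φ = 0 := by
    intro θ
    rw [integral_eq_sub_of_hasDerivAt (fun φ _ => hV θ φ) ((hg.right θ).intervalIntegrable _ _),
      h0, sub_self]
  simp [this]

/-- Continuity of a function of `r, θ, φ`, `r ∈ (0, L)`. -/
def Cn (L : ℝ) (G : ℝ → ℝ → ℝ → ℝ) : Prop :=
  ContinuousOn (fun z : ℝ × ℝ × ℝ => G z.1 z.2.1 z.2.2) (Ioo 0 L ×ˢ univ)

theorem Cn.ct {L : ℝ} {G : ℝ → ℝ → ℝ → ℝ} (hG : Cn L G) {r : ℝ} (hr : r ∈ Ioo 0 L) :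
    Ct (G r) := by
  refine ContinuousOn.comp_continuous (f := fun z : ℝ × ℝ => (r, z)) hG (by fun_prop) ?_
  intro z
  exact ⟨hr, mem_univ _⟩

/-- Clamping to `[a, b]`. -/
def cl (a b r : ℝ) : ℝ := max a (min b r)

theorem cl_mem {a b : ℝ} (h : a ≤ b) (r : ℝ) : cl a b r ∈ Icc a b :=
  ⟨le_max_left _ _, max_le h (min_le_left _ _)⟩

theorem cl_eq {a b r : ℝ} (h : r ∈ Icc a b) : cl a b r = r := by
  rw [cl, min_eq_right h.2, max_eq_right h.1]

theorem continuous_cl (a b : ℝ) : Continuous (cl a b) := by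
  unfold cl
  fun_prop

theorem Cn.clamp {L : ℝ} {G : ℝ → ℝ → ℝ → ℝ} (hG : Cn L G) {a b : ℝ} (h : a ≤ b)
    (ha : 0 < a) (hb : b < L) :
    Continuous fun z : ℝ × ℝ × ℝ => G (cl a b z.1) z.2.1 z.2.2 := by
  have hc := continuous_cl a b
  refine ContinuousOn.comp_continuous (f := fun z : ℝ × ℝ × ℝ => (cl a b z.1, z.2)) hG
    (by fun_prop) ?_
  intro z
  have := cl_mem h z.1
  exact ⟨⟨ha.trans_le this.1, this.2.trans_lt hb⟩, mem_univ _⟩

theorem continuous_SI {G : ℝ → ℝ → ℝ → ℝ}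
    (hG : Continuous fun z : ℝ × ℝ × ℝ => G z.1 z.2.1 z.2.2) : Continuous fun r => SI (G r) := by
  unfold SI
  refine continuous_parametric_intervalIntegral_of_continuous' ?_ _ _
  have h1 : Continuous fun w : (ℝ × ℝ) × ℝ => G w.1.1 w.1.2 w.2 :=
    Continuous.comp (f := fun w : (ℝ × ℝ) × ℝ => (w.1.1, w.1.2, w.2)) hG (by fun_prop)
  exact continuous_parametric_intervalIntegral_of_continuous' h1 _ _

theorem Cn.intervalIntegrable {L : ℝ} {G : ℝ → ℝ → ℝ → ℝ} (hG : Cn L G) {a b : ℝ} (h : a ≤ b)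
    (ha : 0 < a) (hb : b < L) : IntervalIntegrable (fun r => SI (G r)) volume a b := by
  have h1 : Continuous fun r => SI (G (cl a b r)) :=
    continuous_SI (G := fun r => G (cl a b r)) (hG.clamp h ha hb)
  refine (h1.intervalIntegrable a b).congr ?_
  intro r hr
  rw [uIoc_of_le h] at hr
  show SI (G (cl a b r)) = SI (G r)
  rw [cl_eq ⟨hr.1.le, hr.2⟩]

/-- The integral over `[a, b]` and the sphere of a derivative with respect to `r`. -/
theorem SI_ftc {L : ℝ} {T G : ℝ → ℝ → ℝ → ℝ} (hT : Cn L T) (hG : Cn L G) {a b : ℝ} (h : a ≤ b)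
    (ha : 0 < a) (hb : b < L)
    (hd : ∀ r ∈ Ioo 0 L, ∀ θ φ, HasDerivAt (fun t => T t θ φ) (G r θ φ) r) :
    ∫ r in a..b, SI (G r) = SI (T b) - SI (T a) := by
  have hc := hG.clamp h ha hb
  have e1 : ∫ r in a..b, SI (G r) = ∫ r in a..b, SI (G (cl a b r)) := by
    refine integral_congr fun r hr => ?_
    rw [uIcc_of_le h] at hr
    show SI (G r) = SI (G (cl a b r))
    rw [cl_eq hr]
  have h1 : Continuous fun w : (ℝ × ℝ) × ℝ => G (cl a b w.1.1) w.1.2 w.2 :=
    Continuous.comp (f := fun w : (ℝ × ℝ) × ℝ => (w.1.1, w.1.2, w.2)) hc (by fun_prop)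
  have h2 : Ct fun r θ => ∫ φ in (0 : ℝ)..(2 * π), G (cl a b r) θ φ :=
    continuous_parametric_intervalIntegral_of_continuous' h1 _ _
  have hTa := hT.ct (r := a) ⟨ha, h.trans_lt hb⟩
  have hTb := hT.ct (r := b) ⟨ha.trans_le h, hb⟩
  have inner : ∀ θ φ, ∫ r in a..b, G (cl a b r) θ φ = T b θ φ - T a θ φ := by
    intro θ φ
    have h4 : Continuous fun r => G (cl a b r) θ φ :=
      Continuous.comp (f := fun r : ℝ => (r, θ, φ)) hc (by fun_prop)
    refine integral_eq_sub_of_hasDerivAt (f := fun r => T r θ φ) (fun r hr => ?_)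
      (h4.intervalIntegrable a b)
    rw [uIcc_of_le h] at hr
    rw [cl_eq hr]
    exact hd r ⟨ha.trans_le hr.1, hr.2.trans_lt hb⟩ θ φ
  have mid : ∀ θ, ∫ r in a..b, ∫ φ in (0 : ℝ)..(2 * π), G (cl a b r) θ φ
      = (∫ φ in (0 : ℝ)..(2 * π), T b θ φ) - ∫ φ in (0 : ℝ)..(2 * π), T a θ φ := by
    intro θ
    have h3 : Ct fun r φ => G (cl a b r) θ φ :=
      Continuous.comp (f := fun w : ℝ × ℝ => (w.1, θ, w.2)) hc (by fun_prop)
    rw [swap h3]
    simp only [inner]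
    exact intervalIntegral.integral_sub ((hTb.right θ).intervalIntegrable _ _)
      ((hTa.right θ).intervalIntegrable _ _)
  rw [e1]
  show ∫ r in a..b, ∫ θ in (0 : ℝ)..π, ∫ φ in (0 : ℝ)..(2 * π), G (cl a b r) θ φ
    = (∫ θ in (0 : ℝ)..π, ∫ φ in (0 : ℝ)..(2 * π), T b θ φ)
      - ∫ θ in (0 : ℝ)..π, ∫ φ in (0 : ℝ)..(2 * π), T a θ φ
  rw [swap h2]
  simp only [mid]
  exact intervalIntegral.integral_sub ((hTb.inner _ _).intervalIntegrable _ _)
    ((hTa.inner _ _).intervalIntegrable _ _)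

/-- The limit of the integrals over `[ε, L - ε]`. -/
theorem le_of_inner {L C : ℝ} {W e : ℝ → ℝ} (hL : 0 < L) (hW : IntervalIntegrable W volume 0 L)
    (he : Tendsto e (𝓝[>] 0) (𝓝 0))
    (H : ∀ᶠ ε in 𝓝[>] (0 : ℝ), ∫ r in ε..(L - ε), W r ≤ C + e ε) :
    ∫ r in (0 : ℝ)..L, W r ≤ C := by
  have hc : ContinuousOn (fun x => ∫ r in (0 : ℝ)..x, W r) (uIcc 0 L) :=
    continuousOn_primitive_interval (by
      rw [uIcc_of_le hL.le]
      exact (intervalIntegrable_iff_integrableOn_Icc_of_le hL.le).mp hW)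
  rw [uIcc_of_le hL.le] at hc
  have hmem : ∀ᶠ ε in 𝓝[>] (0 : ℝ), ε ∈ Icc 0 L := by
    have : ∀ᶠ ε in 𝓝 (0 : ℝ), ε < L := gt_mem_nhds hL
    filter_upwards [self_mem_nhdsWithin, this.filter_mono nhdsWithin_le_nhds] with ε h1 h2
      using ⟨le_of_lt h1, h2.le⟩
  have t1 : Tendsto (fun ε => ∫ r in (0 : ℝ)..ε, W r) (𝓝[>] 0) (𝓝 0) := by
    have h1 := hc 0 ⟨le_rfl, hL.le⟩
    have h2 : Tendsto (fun ε : ℝ => ε) (𝓝[>] 0) (𝓝[Icc 0 L] 0) :=
      tendsto_nhdsWithin_iff.mpr ⟨tendsto_id.mono_left nhdsWithin_le_nhds, hmem⟩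
    have := h1.tendsto.comp h2
    simpa [Function.comp_def] using this
  have t2 : Tendsto (fun ε => ∫ r in (0 : ℝ)..(L - ε), W r) (𝓝[>] 0)
      (𝓝 (∫ r in (0 : ℝ)..L, W r)) := by
    have h1 := hc L ⟨hL.le, le_rfl⟩
    have h2 : Tendsto (fun ε : ℝ => L - ε) (𝓝[>] 0) (𝓝[Icc 0 L] L) := by
      refine tendsto_nhdsWithin_iff.mpr ⟨?_, ?_⟩
      · have : Tendsto (fun ε : ℝ => L - ε) (𝓝 0) (𝓝 (L - 0)) :=
          (continuous_const.sub continuous_id).tendsto 0
        rw [sub_zero] at this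
        exact this.mono_left nhdsWithin_le_nhds
      · filter_upwards [hmem] with ε hε using ⟨by linarith [hε.2], by linarith [hε.1]⟩
    exact h1.tendsto.comp h2
  have t3 : Tendsto (fun ε => ∫ r in ε..(L - ε), W r) (𝓝[>] 0)
      (𝓝 (∫ r in (0 : ℝ)..L, W r)) := by
    have h3 := t2.sub t1
    rw [sub_zero] at h3
    refine h3.congr' ?_
    filter_upwards [hmem] with ε hε
    have i1 : IntervalIntegrable W volume 0 ε :=
      hW.mono_set (by
        rw [uIcc_of_le hL.le, uIcc_of_le hε.1]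
        exact Icc_subset_Icc le_rfl hε.2)
    have i2 : IntervalIntegrable W volume 0 (L - ε) :=
      hW.mono_set (by
        rw [uIcc_of_le hL.le, uIcc_of_le (by linarith [hε.2])]
        exact Icc_subset_Icc le_rfl (by linarith [hε.1]))
    exact integral_interval_sub_left i2 i1
  have t4 : Tendsto (fun ε => C + e ε) (𝓝[>] 0) (𝓝 (C + 0)) := tendsto_const_nhds.add he
  rw [add_zero] at t4
  exact le_of_tendsto_of_tendsto t3 t4 H

end

end Pool.Agent.Lib_helper94.QS
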