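import Pool.Agent.Lib_helper94.QS.Frame
import Pool.Agent.Lib_helper94.QS.Pot
import Pool.Agent.Lib_helper94.QS.SI

/-!
# The calibration argument
-/

set_option autoImplicit false

namespace Pool.Agent.Lib_helper94.QS

open Real MeasureTheory intervalIntegral Set Filter Topology

noncomputable section

section Cont

variable {n : ℝ → E3 → ℝ}

theorem continuous_P : Continuous fun z : ℝ × ℝ × ℝ => P z.1 z.2.1 z.2.2 := by
  unfold P
  exact continuous_fst.prodMk (continuous_sph.comp (f := fun z : ℝ × ℝ × ℝ => (z.2.1, z.2.2))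
    (by fun_prop))

theorem continuous_eth3 : Continuous fun z : ℝ × ℝ × ℝ => ((0 : ℝ), eth z.2.1 z.2.2) :=
  continuous_const.prodMk (continuous_eth.comp (f := fun z : ℝ × ℝ × ℝ => (z.2.1, z.2.2))
    (by fun_prop))

theorem continuous_eph3 : Continuous fun z : ℝ × ℝ × ℝ => ((0 : ℝ), eph z.2.2) :=
  continuous_const.prodMk (continuous_eph.comp (f := fun z : ℝ × ℝ × ℝ => z.2.2) (by fun_prop))

theorem continuous_sph3 : Continuous fun z : ℝ × ℝ × ℝ => ((0 : ℝ), sph z.2.1 z.2.2) :=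
  continuous_const.prodMk (continuous_sph.comp (f := fun z : ℝ × ℝ × ℝ => (z.2.1, z.2.2))
    (by fun_prop))

theorem continuous_nu (hn : ContDiff ℝ 2 (nu n)) : Continuous (nu n) := hn.continuous

theorem cNf (hn : ContDiff ℝ 2 (nu n)) :
    Continuous fun z : ℝ × ℝ × ℝ => Nf n z.1 z.2.1 z.2.2 := hn.continuous.comp continuous_P

theorem cNr (hn : ContDiff ℝ 2 (nu n)) : Continuous fun z : ℝ × ℝ × ℝ => Nr n z.1 z.2.1 z.2.2 :=
  ((continuous_Dn hn).comp continuous_P).clm_apply continuous_const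

theorem cB1 (hn : ContDiff ℝ 2 (nu n)) : Continuous fun z : ℝ × ℝ × ℝ => B1 n z.1 z.2.1 z.2.2 :=
  ((continuous_Dn hn).comp continuous_P).clm_apply continuous_eth3

theorem cB2 (hn : ContDiff ℝ 2 (nu n)) : Continuous fun z : ℝ × ℝ × ℝ => B2 n z.1 z.2.1 z.2.2 :=
  ((continuous_Dn hn).comp continuous_P).clm_apply continuous_eph3

theorem cBr (hn : ContDiff ℝ 2 (nu n)) : Continuous fun z : ℝ × ℝ × ℝ => Br n z.1 z.2.1 z.2.2 :=
  ((continuous_Dn hn).comp continuous_P).clm_apply continuous_sph3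

theorem cA11 (hn : ContDiff ℝ 2 (nu n)) : Continuous fun z : ℝ × ℝ × ℝ => A11 n z.1 z.2.1 z.2.2 :=
  ((((continuous_D2n hn).comp continuous_P).clm_apply continuous_eth3).clm_apply
    continuous_eth3).sub (cBr hn)

theorem cA22 (hn : ContDiff ℝ 2 (nu n)) : Continuous fun z : ℝ × ℝ × ℝ => A22 n z.1 z.2.1 z.2.2 :=
  ((((continuous_D2n hn).comp continuous_P).clm_apply continuous_eph3).clm_apply
    continuous_eph3).sub (cBr hn)

theorem cA12 (hn : ContDiff ℝ 2 (nu n)) : Continuous fun z : ℝ × ℝ × ℝ => A12 n z.1 z.2.1 z.2.2 :=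
  (((continuous_D2n hn).comp continuous_P).clm_apply continuous_eth3).clm_apply continuous_eph3

end Cont

/-- The standing assumptions. -/
structure Setup (L : ℝ) (f f1 f2 : ℝ → ℝ) (n : ℝ → E3 → ℝ) : Prop where
  hL : 0 < L
  hn : ContDiff ℝ 2 (nu n)
  df : ∀ r, HasDerivAt f (f1 r) r
  df1 : ∀ r, HasDerivAt f1 (f2 r) r
  cf2 : Continuous f2
  fpos : ∀ r ∈ Ioo 0 L, 0 < f r
  npos : ∀ r ∈ Icc 0 L, ∀ θ φ, 0 < Nf n r θ φ

section Defs

variable (n : ℝ → E3 → ℝ) (f f1 f2 : ℝ → ℝ)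

def pp (r θ φ : ℝ) : ℝ := f1 r / Nf n r θ φ

def pq (r θ φ : ℝ) : ℝ := (f2 r * Nf n r θ φ - f1 r * Nr n r θ φ) / Nf n r θ φ ^ 2

def rad (r θ φ : ℝ) : ℝ := -(1 - pp n f1 r θ φ ^ 2) * pq n f1 f2 r θ φ / f r
  - (1 - pp n f1 r θ φ ^ 2) ^ 2 * Nf n r θ φ / (4 * f r ^ 2)

def dv1 (r θ φ : ℝ) : ℝ := -(pp n f1 r θ φ ^ 2 * B1 n r θ φ ^ 2 * sin θ / Nf n r θ φ)
  - 1 / 2 * (1 - pp n f1 r θ φ ^ 2) * (cos θ * B1 n r θ φ + sin θ * A11 n r θ φ)

def dv2 (r θ φ : ℝ) : ℝ := -(pp n f1 r θ φ ^ 2 * B2 n r θ φ ^ 2 * sin θ / Nf n r θ φ)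
  - 1 / 2 * (1 - pp n f1 r θ φ ^ 2) * (sin θ * A22 n r θ φ - cos θ * B1 n r θ φ)

def tf (r θ φ : ℝ) : ℝ := sin θ * (1 / 2 * (A11 n r θ φ - A22 n r θ φ) ^ 2
  + 2 * A12 n r θ φ ^ 2) / (2 * Nf n r θ φ * f r ^ 2)

/-- The integrand of the total `σ₂`. -/
def s2 (r θ φ : ℝ) : ℝ := sin θ * rad n f f1 f2 r θ φ
  + (dv1 n f1 r θ φ + dv2 n f1 r θ φ) / f r ^ 2 - tf n f r θ φ

/-- The integrand of the total `σ₁`. -/
def s1 (r θ φ : ℝ) : ℝ := sin θ * (1 / 2 * (1 - pp n f1 r θ φ ^ 2) * Nf n r θ φ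
  - f r * pq n f1 f2 r θ φ) - 1 / 2 * (sin θ * (A11 n r θ φ + A22 n r θ φ))

/-- The integrand of the volume. -/
def vl (r θ φ : ℝ) : ℝ := sin θ * (Nf n r θ φ * f r ^ 2)

/-- The potential. -/
def Th (m c s r θ φ : ℝ) : ℝ := s * (Fp (s * pp n f1 r θ φ) / f r + GG m c (f r))
  - c * (f r * pp n f1 r θ φ)

/-- The derivative of the potential. -/
def dTh (m c s r θ φ : ℝ) : ℝ := -(1 - pp n f1 r θ φ ^ 2) * pq n f1 f2 r θ φ / f r
  + s * f1 r * (-Fp (s * pp n f1 r θ φ) / f r ^ 2 + (gg m (f r) + c * qq m (f r)))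
  - c * (f1 r * pp n f1 r θ φ + f r * pq n f1 f2 r θ φ)

end Defs

namespace Setup

variable {L : ℝ} {f f1 f2 : ℝ → ℝ} {n : ℝ → E3 → ℝ}

theorem cf (S : Setup L f f1 f2 n) : Continuous f :=
  continuous_iff_continuousAt.mpr fun r => (S.df r).continuousAt

theorem cf1 (S : Setup L f f1 f2 n) : Continuous f1 :=
  continuous_iff_continuousAt.mpr fun r => (S.df1 r).continuousAt

theorem npos' (S : Setup L f f1 f2 n) {r : ℝ} (hr : r ∈ Ioo 0 L) (θ φ : ℝ) : 0 < Nf n r θ φ :=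
  S.npos r ⟨hr.1.le, hr.2.le⟩ θ φ

theorem good (S : Setup L f f1 f2 n) {r θ : ℝ} (hr : r ∈ Ioo 0 L) (hθ : θ ∈ Ioo 0 π) (φ : ℝ) :
    Good (fun y => n (y 0) (sph (y 1) (y 2))) f ![r, θ, φ] :=
  ⟨S.npos' hr θ φ, S.fpos r hr, sin_pos_of_mem_Ioo hθ⟩

theorem dat (S : Setup L f f1 f2 n) :
    Data (fun y => n (y 0) (sph (y 1) (y 2))) (n1 n) (n2 n) f f1 f2 := data S.hn S.df S.df1

theorem lap_eq (n : ℝ → E3 → ℝ) {r θ φ : ℝ} (hs : sin θ ≠ 0) :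
    lap (n1 n) (n2 n) ![r, θ, φ] = A11 n r θ φ + A22 n r θ φ := by
  simp [lap, n1, n2]
  field_simp
  ring

theorem scalar (S : Setup L f f1 f2 n) {r θ : ℝ} (hr : r ∈ Ioo 0 L) (hθ : θ ∈ Ioo 0 π) (φ : ℝ) :
    scalarCurv (metric f n) ![r, θ, φ] = 2 * ((1 - pp n f1 r θ φ ^ 2) / f r ^ 2
      - 2 * pq n f1 f2 r θ φ / (Nf n r θ φ * f r)
      - (A11 n r θ φ + A22 n r θ φ) / (f r ^ 2 * Nf n r θ φ)) := by
  have h := scalar_eq S.dat (S.good hr hθ φ)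
  have hm : metric f n = met (fun y => n (y 0) (sph (y 1) (y 2))) f := rfl
  rw [hm, h, kap, rho, lap_eq n (sin_pos_of_mem_Ioo hθ).ne']
  have hN : n r (sph θ φ) = Nf n r θ φ := rfl
  simp [hN, n1, pp, pq]
  ring

theorem detm (S : Setup L f f1 f2 n) {r θ : ℝ} (hr : r ∈ Ioo 0 L) (hθ : θ ∈ Ioo 0 π) (φ : ℝ) :
    √(metric f n ![r, θ, φ]).det = Nf n r θ φ * f r ^ 2 * sin θ := by
  have h := sqrt_det (S.good hr hθ φ)
  have hm : metric f n = met (fun y => n (y 0) (sph (y 1) (y 2))) f := rfl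
  rw [hm, h]
  simp [Nf, nu, P]

theorem int0 (S : Setup L f f1 f2 n) {r θ : ℝ} (hr : r ∈ Ioo 0 L) (hθ : θ ∈ Ioo 0 π) (φ : ℝ) :
    1 * √(metric f n ![r, θ, φ]).det = vl n f r θ φ := by
  rw [S.detm hr hθ, vl]
  ring

theorem int1 (S : Setup L f f1 f2 n) {r θ : ℝ} (hr : r ∈ Ioo 0 L) (hθ : θ ∈ Ioo 0 π) (φ : ℝ) :
    sigmaOne (metric f n) ![r, θ, φ] * √(metric f n ![r, θ, φ]).det = s1 n f f1 f2 r θ φ := by
  rw [S.detm hr hθ, sigmaOne, S.scalar hr hθ, s1]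
  have h1 := (S.fpos r hr).ne'
  have h2 := (S.npos' hr θ φ).ne'
  field_simp
  ring

theorem int2 (S : Setup L f f1 f2 n) {r θ : ℝ} (hr : r ∈ Ioo 0 L) (hθ : θ ∈ Ioo 0 π) (φ : ℝ) :
    sigmaTwo (metric f n) ![r, θ, φ] * √(metric f n ![r, θ, φ]).det = s2 n f f1 f2 r θ φ := by
  have h := sigmaTwo_eq S.dat (S.good hr hθ φ)
  have hm : metric f n = met (fun y => n (y 0) (sph (y 1) (y 2))) f := rfl
  rw [S.detm hr hθ, hm, h, kap, rho, lap_eq n (sin_pos_of_mem_Ioo hθ).ne']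
  have hN : n r (sph θ φ) = Nf n r θ φ := rfl
  have h1 := (S.fpos r hr).ne'
  have h2 := (S.npos' hr θ φ).ne'
  have h3 := (sin_pos_of_mem_Ioo hθ).ne'
  simp [hN, n1, n2, s2, rad, dv1, dv2, tf, pp, pq]
  generalize Nf n r θ φ = N at *
  generalize Nr n r θ φ = Nr' at *
  generalize B1 n r θ φ = b1 at *
  generalize B2 n r θ φ = b2 at *
  generalize A11 n r θ φ = a11 at *
  generalize A22 n r θ φ = a22 at *
  generalize A12 n r θ φ = a12 at *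
  field_simp
  ring

theorem total_congr {G : (Fin 3 → ℝ) → Matrix (Fin 3) (Fin 3) ℝ} {F : (Fin 3 → ℝ) → ℝ}
    (hL : 0 < L) {W : ℝ → ℝ → ℝ → ℝ}
    (H : ∀ r ∈ Ioo 0 L, ∀ θ ∈ Ioo 0 π, ∀ φ, F ![r, θ, φ] * √(G ![r, θ, φ]).det = W r θ φ) :
    total G L F = ∫ r in (0 : ℝ)..L, SI (W r) := by
  unfold total
  rw [intervalIntegral.integral_of_le hL.le, intervalIntegral.integral_of_le hL.le,
    integral_Ioc_eq_integral_Ioo, integral_Ioc_eq_integral_Ioo]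
  refine setIntegral_congr_fun measurableSet_Ioo fun r hr => ?_
  exact SI_congr (g := fun θ φ => F ![r, θ, φ] * √(G ![r, θ, φ]).det) fun θ hθ φ => H r hr θ hθ φ

end Setup

end

end Pool.Agent.Lib_helper94.QS
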