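import Pool.Agent.Lib_helper94.QS.Bound

/-!
# The maximum principle for the mean curvature of the spheres
-/

set_option autoImplicit false

namespace Pool.Agent.Lib_helper94.QS

open Real MeasureTheory intervalIntegral Set Filter Topology

noncomputable section

/-- The second derivative is nonnegative at a minimum. -/
theorem second_test {u u' : ℝ → ℝ} {a t0 : ℝ} (hu : ∀ t, HasDerivAt u (u' t) t)
    (hu' : HasDerivAt u' a t0) (hmin : ∀ t, u t0 ≤ u t) : 0 ≤ a := by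
  by_contra ha
  rw [not_le] at ha
  have h0 : u' t0 = 0 :=
    IsLocalMin.hasDerivAt_eq_zero (Filter.Eventually.of_forall hmin) (hu t0)
  have h1 : ∀ᶠ t in 𝓝[≠] t0, slope u' t0 t < 0 :=
    (hasDerivAt_iff_tendsto_slope.mp hu').eventually (gt_mem_nhds ha)
  have h2 : ∀ᶠ t in 𝓝[>] t0, u' t < 0 := by
    have h3 : ∀ᶠ t in 𝓝[>] t0, slope u' t0 t < 0 :=
      h1.filter_mono (nhdsWithin_mono _ fun t ht => ne_of_gt ht)
    filter_upwards [h3, self_mem_nhdsWithin] with t ht htt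
    rw [slope_def_field, h0, sub_zero] at ht
    have htt' : 0 < t - t0 := sub_pos.mpr htt
    by_contra hc
    rw [not_lt] at hc
    exact absurd (div_nonneg hc htt'.le) (not_le.mpr ht)
  obtain ⟨b, hb, hb2⟩ := (mem_nhdsGT_iff_exists_Ioo_subset).mp h2
  have hb' : t0 < b := hb
  set c := (t0 + b) / 2 with hc
  have hc1 : t0 < c := by rw [hc]; linarith
  have hc2 : c < b := by rw [hc]; linarith
  have hanti : StrictAntiOn u (Icc t0 c) := by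
    refine strictAntiOn_of_deriv_neg (convex_Icc _ _)
      (fun t _ => (hu t).continuousAt.continuousWithinAt) fun t ht => ?_
    rw [interior_Icc] at ht
    rw [(hu t).deriv]
    exact hb2 ⟨ht.1, ht.2.trans hc2⟩
  have := hanti (left_mem_Icc.mpr hc1.le) (right_mem_Icc.mpr hc1.le) hc1
  exact absurd (hmin c) (not_le.mpr this)

theorem norm_cmb (a b c : ℝ) : ‖cmb a b c‖ ^ 2 = a ^ 2 + b ^ 2 + c ^ 2 := by
  rw [EuclideanSpace.norm_sq_eq, Fin.sum_univ_three]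
  simp [cmb]

theorem norm_cmb_one {a b c : ℝ} (h : a ^ 2 + b ^ 2 + c ^ 2 = 1) : ‖cmb a b c‖ = 1 := by
  have h1 := norm_cmb a b c
  rw [h] at h1
  exact (pow_eq_one_iff_of_nonneg (norm_nonneg _) two_ne_zero).mp h1

theorem norm_sph (θ φ : ℝ) : ‖sph θ φ‖ = 1 := by
  rw [sph_eq]
  refine norm_cmb_one ?_
  have h1 := sin_sq_add_cos_sq θ
  have h2 := sin_sq_add_cos_sq φ
  linear_combination sin θ ^ 2 * h2 + h1

/-- A great circle. -/
def gc (θ φ t : ℝ) : E3 := cos t • sph θ φ + sin t • eph φ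

theorem norm_gc (θ φ t : ℝ) : ‖gc θ φ t‖ = 1 := by
  rw [gc, sph_eq, eph, cmb_smul, cmb_smul, cmb_add]
  refine norm_cmb_one ?_
  have h1 := sin_sq_add_cos_sq θ
  have h2 := sin_sq_add_cos_sq φ
  have h3 := sin_sq_add_cos_sq t
  linear_combination (cos t ^ 2 * sin θ ^ 2 + sin t ^ 2) * h2 + cos t ^ 2 * h1 + h3

theorem gc_zero (θ φ : ℝ) : gc θ φ 0 = sph θ φ := by simp [gc]

theorem surj_sph {ω : E3} (hω : ‖ω‖ = 1) : ∃ θ ∈ Icc 0 π, ∃ φ, sph θ φ = ω := by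
  have h := EuclideanSpace.norm_sq_eq ω
  rw [hω, Fin.sum_univ_three] at h
  simp only [Real.norm_eq_abs, sq_abs] at h
  have hz1 : -1 ≤ ω 2 := by nlinarith [sq_nonneg (ω 0), sq_nonneg (ω 1)]
  have hz2 : ω 2 ≤ 1 := by nlinarith [sq_nonneg (ω 0), sq_nonneg (ω 1)]
  set z : ℂ := ⟨ω 0, ω 1⟩ with hz
  have hn : ‖z‖ = √(1 - ω 2 ^ 2) := by
    rw [Complex.norm_eq_sqrt_sq_add_sq]
    congr 1
    simp only [hz]
    linarith
  refine ⟨arccos (ω 2), ⟨arccos_nonneg _, arccos_le_pi _⟩, Complex.arg z, ?_⟩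
  have h1 : sin (arccos (ω 2)) * cos (Complex.arg z) = ω 0 := by
    rw [sin_arccos, ← hn, Complex.norm_mul_cos_arg]
  have h2 : sin (arccos (ω 2)) * sin (Complex.arg z) = ω 1 := by
    rw [sin_arccos, ← hn, Complex.norm_mul_sin_arg]
  ext i
  fin_cases i
  · simpa [sph] using h1
  · simpa [sph] using h2
  · simpa [sph] using cos_arccos hz1 hz2

variable {L : ℝ} {f f1 f2 : ℝ → ℝ} {n : ℝ → E3 → ℝ}

/-- `A22` is a second derivative along a great circle. -/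
theorem A22_nonneg (hn : ContDiff ℝ 2 (nu n)) {r θ φ : ℝ}
    (hmin : ∀ ω : E3, ‖ω‖ = 1 → n r (sph θ φ) ≤ n r ω) : 0 ≤ A22 n r θ φ := by
  have hgc : ∀ t, HasDerivAt (gc θ φ) (-sin t • sph θ φ + cos t • eph φ) t := fun t =>
    ((hasDerivAt_cos t).smul_const _).add ((hasDerivAt_sin t).smul_const _)
  have hc : ∀ t, HasDerivAt (fun s => (r, gc θ φ s)) ((0 : ℝ), -sin t • sph θ φ + cos t • eph φ) t :=
    fun t => (hasDerivAt_const t r).prodMk (hgc t)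
  have hgc' : HasDerivAt (fun t => -sin t • sph θ φ + cos t • eph φ)
      (-cos 0 • sph θ φ + -sin 0 • eph φ) 0 :=
    ((hasDerivAt_sin 0).fun_neg.smul_const _).add ((hasDerivAt_cos 0).smul_const _)
  have h1 : ∀ t, HasDerivAt (fun s => nu n (r, gc θ φ s))
      (Dn n (r, gc θ φ t) ((0 : ℝ), -sin t • sph θ φ + cos t • eph φ)) t := fun t => der_nu hn (hc t)
  have h2 := der_Dn hn (hc 0) (pair_der hgc')
  have h3 := second_test h1 h2 (by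
    intro t
    rw [gc_zero]
    exact hmin _ (norm_gc θ φ t))
  have e1 : ((0 : ℝ), -sin 0 • sph θ φ + cos 0 • eph φ) = ((0 : ℝ), eph φ) := by simp
  have e2 : ((0 : ℝ), -cos 0 • sph θ φ + -sin 0 • eph φ) = -((0 : ℝ), sph θ φ) := by simp
  rw [e1, e2, gc_zero, map_neg] at h3
  unfold A22 Br P
  linarith

theorem A11_nonneg (hn : ContDiff ℝ 2 (nu n)) {r θ φ : ℝ}
    (hmin : ∀ ω : E3, ‖ω‖ = 1 → n r (sph θ φ) ≤ n r ω) : 0 ≤ A11 n r θ φ :=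
  second_test (fun t => Nf_th hn r t φ) (B1_th hn r θ φ) fun t => hmin _ (norm_sph t φ)

namespace Setup

/-- The continuous extension of the scalar curvature is nonnegative. -/
theorem R_nonneg (S : Setup L f f1 f2 n)
    (hR : ∀ r ∈ Ioo 0 L, ∀ θ ∈ Ioo 0 π, ∀ φ, 0 ≤ scalarCurv (metric f n) ![r, θ, φ])
    {r : ℝ} (hr : r ∈ Ioo 0 L) {θ : ℝ} (hθ : θ ∈ Icc 0 π) (φ : ℝ) :
    0 ≤ 2 * ((1 - pp n f1 r θ φ ^ 2) / f r ^ 2
      - 2 * pq n f1 f2 r θ φ / (Nf n r θ φ * f r)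
      - (A11 n r θ φ + A22 n r θ φ) / (f r ^ 2 * Nf n r θ φ)) := by
  have hc : Cn L fun r θ φ => 2 * ((1 - pp n f1 r θ φ ^ 2) / f r ^ 2
      - 2 * pq n f1 f2 r θ φ / (Nf n r θ φ * f r)
      - (A11 n r θ φ + A22 n r θ φ) / (f r ^ 2 * Nf n r θ φ)) :=
    (Cn.const L 2).mul (((S.cn_one.div (S.cn_f.pow 2) fun _ hr θ φ =>
      pow_ne_zero 2 (S.fpos _ hr).ne').sub (((Cn.const L 2).mul S.cn_pq).div
        (S.cn_Nf.mul S.cn_f) fun _ hr θ φ => mul_ne_zero (S.npos' hr θ φ).ne'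
          (S.fpos _ hr).ne')).sub ((S.cn_A11.add S.cn_A22).div ((S.cn_f.pow 2).mul S.cn_Nf)
            fun _ hr θ φ => mul_ne_zero (pow_ne_zero 2 (S.fpos _ hr).ne') (S.npos' hr θ φ).ne'))
  have hc2 := (hc.ct hr).left φ
  have hsub : closure (Ioo 0 π) ⊆ {θ | 0 ≤ 2 * ((1 - pp n f1 r θ φ ^ 2) / f r ^ 2
      - 2 * pq n f1 f2 r θ φ / (Nf n r θ φ * f r)
      - (A11 n r θ φ + A22 n r θ φ) / (f r ^ 2 * Nf n r θ φ))} := by
    refine closure_minimal ?_ (isClosed_le continuous_const hc2)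
    intro t ht
    show (0 : ℝ) ≤ _
    rw [← S.scalar hr ht φ]
    exact hR r hr t ht φ
  rw [closure_Ioo pi_pos.ne] at hsub
  exact hsub hθ

theorem s1_nonneg (S : Setup L f f1 f2 n)
    (hR : ∀ r ∈ Ioo 0 L, ∀ θ ∈ Ioo 0 π, ∀ φ, 0 ≤ scalarCurv (metric f n) ![r, θ, φ])
    {r : ℝ} (hr : r ∈ Ioo 0 L) : 0 ≤ SI (s1 n f f1 f2 r) := by
  refine SI_nonneg fun θ hθ φ => ?_
  have h := S.R_nonneg hR hr hθ φ
  have h1 := S.fpos r hr
  have h2 := S.npos' hr θ φ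
  have h3 := sin_nonneg_of_mem_Icc hθ
  have e : s1 n f f1 f2 r θ φ = sin θ * Nf n r θ φ * f r ^ 2 / 4
      * (2 * ((1 - pp n f1 r θ φ ^ 2) / f r ^ 2
      - 2 * pq n f1 f2 r θ φ / (Nf n r θ φ * f r)
      - (A11 n r θ φ + A22 n r θ φ) / (f r ^ 2 * Nf n r θ φ))) := by
    unfold s1
    field_simp
    ring
  rw [e]
  positivity

/-- The maximum principle at an interior point. -/
theorem max_le (S : Setup L f f1 f2 n)
    (hnp : ∀ r ∈ Ioo 0 L, ∀ ω : E3, ‖ω‖ = 1 → 0 < n r ω)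
    (hR : ∀ r ∈ Ioo 0 L, ∀ θ ∈ Ioo 0 π, ∀ φ, 0 ≤ scalarCurv (metric f n) ![r, θ, φ])
    {rs : ℝ} {ωs : E3} (hI : rs ∈ Ioo 0 L) (hωs' : ‖ωs‖ = 1)
    (hmax1 : ∀ᶠ t in 𝓝 rs, (f1 t / n t ωs) ^ 2 ≤ (f1 rs / n rs ωs) ^ 2)
    (hmax2 : ∀ ω : E3, ‖ω‖ = 1 → (f1 rs / n rs ω) ^ 2 ≤ (f1 rs / n rs ωs) ^ 2) :
    (f1 rs / n rs ωs) ^ 2 ≤ 1 := by
  by_contra hgt
  rw [not_le] at hgt
  obtain ⟨θ, hθ, φ, hω⟩ := surj_sph hωs'
  have hN := hnp rs hI ωs hωs'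
  have hpp : pp n f1 rs θ φ = f1 rs / n rs ωs := by simp [pp, Nf, nu, P, hω]
  have hf1 : f1 rs ≠ 0 := by
    intro h
    rw [h] at hgt
    norm_num at hgt
  -- the radial derivative vanishes
  have hd : HasDerivAt (fun t => pp n f1 t θ φ ^ 2)
      (2 * pp n f1 rs θ φ * pq n f1 f2 rs θ φ) rs := by
    have := (S.hasDerivAt_pp hI θ φ).fun_pow 2
    simpa using this
  have hloc : IsLocalMax (fun t => pp n f1 t θ φ ^ 2) rs := by
    filter_upwards [hmax1] with t ht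
    rw [hpp]
    simpa [pp, Nf, nu, P, hω] using ht
  have hz := hloc.hasDerivAt_eq_zero hd
  have hpq : pq n f1 f2 rs θ φ = 0 := by
    rcases mul_eq_zero.mp hz with h | h
    · rcases mul_eq_zero.mp h with h | h
      · norm_num at h
      · rw [hpp] at h
        exact absurd h (div_ne_zero hf1 hN.ne')
    · exact h
  -- the lapse is minimal
  have hmin : ∀ ω : E3, ‖ω‖ = 1 → n rs (sph θ φ) ≤ n rs ω := by
    intro ω hω1
    rw [hω]
    have h2 := hmax2 ω hω1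
    have h3 := hnp rs hI ω hω1
    rw [div_pow, div_pow, div_le_div_iff₀ (by positivity) (by positivity)] at h2
    have h4 : n rs ωs ^ 2 ≤ n rs ω ^ 2 := le_of_mul_le_mul_left h2 (by positivity)
    exact (pow_le_pow_iff_left₀ hN.le h3.le two_ne_zero).mp h4
  have hA1 := A11_nonneg S.hn hmin
  have hA2 := A22_nonneg S.hn hmin
  have hRR := S.R_nonneg hR hI hθ φ
  rw [hpq, hpp] at hRR
  have hf := S.fpos rs hI
  have hNf : 0 < Nf n rs θ φ := S.npos' hI θ φ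
  have h5 : (1 - (f1 rs / n rs ωs) ^ 2) / f rs ^ 2 < 0 :=
    div_neg_of_neg_of_pos (by linarith) (by positivity)
  have h6 : 0 ≤ (A11 n rs θ φ + A22 n rs θ φ) / (f rs ^ 2 * Nf n rs θ φ) := by positivity
  simp only [mul_zero, zero_div, sub_zero] at hRR
  linarith

/-- A maximum of the mean curvature over an interval. -/
theorem exists_maxP (S : Setup L f f1 f2 n) {a b : ℝ} (hab : a ≤ b)
    (hnp : ∀ r ∈ Icc a b, ∀ ω : E3, ‖ω‖ = 1 → 0 < n r ω) :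
    ∃ rs ∈ Icc a b, ∃ ωs : E3, ‖ωs‖ = 1 ∧
      ∀ r ∈ Icc a b, ∀ ω : E3, ‖ω‖ = 1 → (f1 r / n r ω) ^ 2 ≤ (f1 rs / n rs ωs) ^ 2 := by
  set K : Set (ℝ × E3) := Icc a b ×ˢ Metric.sphere 0 1 with hK
  have hKc : IsCompact K := isCompact_Icc.prod (isCompact_sphere 0 1)
  have hmem : ∀ r ∈ Icc a b, ∀ ω : E3, ‖ω‖ = 1 → (r, ω) ∈ K := fun r hr ω hω =>
    ⟨hr, by simpa using hω⟩
  set F : ℝ × E3 → ℝ := fun q => (f1 q.1 / nu n q) ^ 2 with hF
  have hFc : ContinuousOn F K := by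
    refine ContinuousOn.pow (ContinuousOn.div (S.cf1.comp continuous_fst).continuousOn
      S.hn.continuous.continuousOn ?_) 2
    rintro ⟨r, ω⟩ ⟨hr, hω⟩
    exact (hnp r hr ω (by simpa using hω)).ne'
  have hne : K.Nonempty := ⟨(a, sph 0 0), hmem a ⟨le_rfl, hab⟩ _ (norm_sph 0 0)⟩
  obtain ⟨⟨rs, ωs⟩, ⟨hrs, hωs⟩, hmax⟩ := hKc.exists_isMaxOn hne hFc
  exact ⟨rs, hrs, ωs, by simpa using hωs, fun r hr ω hω => hmax (hmem r hr ω hω)⟩

/-- The maximum principle on the 3-sphere: `|f₁| ≤ N`. -/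
theorem abs_pp (S : Setup L f f1 f2 n)
    (hnp : ∀ r ∈ Icc 0 L, ∀ ω : E3, ‖ω‖ = 1 → 0 < n r ω)
    (h0 : ∀ ω : E3, ‖ω‖ = 1 → n 0 ω = f1 0) (h1 : ∀ ω : E3, ‖ω‖ = 1 → n L ω = -f1 L)
    (hR : ∀ r ∈ Ioo 0 L, ∀ θ ∈ Ioo 0 π, ∀ φ, 0 ≤ scalarCurv (metric f n) ![r, θ, φ]) :
    ∀ r ∈ Ioo 0 L, ∀ θ φ, |pp n f1 r θ φ| ≤ 1 := by
  obtain ⟨rs, hrs, ωs, hωs', hmax'⟩ := S.exists_maxP S.hL.le hnp
  suffices hle : (f1 rs / n rs ωs) ^ 2 ≤ 1 by
    intro r hr θ φ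
    have h2 := (hmax' r ⟨hr.1.le, hr.2.le⟩ _ (norm_sph θ φ)).trans hle
    exact abs_le_one_iff_mul_self_le_one.mpr (by simpa [pp, Nf, nu, P, sq] using h2)
  by_contra hgt
  rw [not_le] at hgt
  have hrs0 : rs ≠ 0 := by
    rintro rfl
    rw [h0 ωs hωs', div_self (by rw [← h0 ωs hωs']; exact (hnp 0 hrs ωs hωs').ne')] at hgt
    norm_num at hgt
  have hrsL : rs ≠ L := by
    rintro rfl
    have h3 := (hnp rs hrs ωs hωs').ne'
    have h4 := h1 ωs hωs'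
    have h5 : f1 rs = -n rs ωs := by rw [h4]; ring
    rw [h5, neg_div, div_self h3] at hgt
    norm_num at hgt
  have hI : rs ∈ Ioo 0 L :=
    ⟨lt_of_le_of_ne hrs.1 (Ne.symm hrs0), lt_of_le_of_ne hrs.2 hrsL⟩
  refine absurd (S.max_le (fun r hr => hnp r ⟨hr.1.le, hr.2.le⟩) hR hI hωs' ?_
    (hmax' rs hrs)) (not_le.mpr hgt)
  filter_upwards [Icc_mem_nhds hI.1 hI.2] with t ht using hmax' t ht ωs hωs'

end Setup

end

end Pool.Agent.Lib_helper94.QS
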