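import Pool.Agent.Lib_helper94.QS.Maxp

/-!
# Metrics on the product of the circle and the 2-sphere
-/

set_option autoImplicit false

namespace Pool.Agent.Lib_helper94.QS

open Real MeasureTheory intervalIntegral Set Filter Topology

noncomputable section

namespace Setup

variable {L : ℝ} {f f1 f2 : ℝ → ℝ} {n : ℝ → E3 → ℝ}

theorem shift_der {f f1 : ℝ → ℝ} (df : ∀ r, HasDerivAt f (f1 r) r) (fper : ∀ r, f (r + L) = f r)
    (r : ℝ) : f1 (r + L) = f1 r := by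
  have h1 := (df (r + L)).comp_add_const r L
  have h2 : (fun x => f (x + L)) = f := funext fper
  rw [h2] at h1
  exact h1.unique (df r)

theorem shift_nu (nper : ∀ r ω, n (r + L) ω = n r ω) (q : ℝ × E3) :
    nu n (q + (L, 0)) = nu n q := by
  simp [nu, nper]

theorem shift_Dn (nper : ∀ r ω, n (r + L) ω = n r ω) (q : ℝ × E3) :
    Dn n (q + (L, 0)) = Dn n q := by
  rw [Dn, ← fderiv_comp_add_right, Dn]
  congr 1
  funext q
  exact shift_nu nper q

theorem shift_D2n (nper : ∀ r ω, n (r + L) ω = n r ω) (q : ℝ × E3) :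
    D2n n (q + (L, 0)) = D2n n q := by
  rw [D2n, ← fderiv_comp_add_right, D2n]
  congr 1
  funext q
  exact shift_Dn nper q

theorem shift_P (r θ φ : ℝ) : P (r + L) θ φ = P r θ φ + (L, 0) := by simp [P]

theorem shift_s1 (df : ∀ r, HasDerivAt f (f1 r) r) (df1 : ∀ r, HasDerivAt f1 (f2 r) r)
    (fper : ∀ r, f (r + L) = f r) (nper : ∀ r ω, n (r + L) ω = n r ω) (r : ℝ) :
    s1 n f f1 f2 (r + L) = s1 n f f1 f2 r := by
  have e1 := shift_der df fper
  have e2 := shift_der df1 e1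
  funext θ φ
  simp only [s1, pp, pq, Nf, Nr, A11, A22, Br, shift_P, shift_nu nper, shift_Dn nper,
    shift_D2n nper, fper, e1, e2]

theorem shift_s2 (df : ∀ r, HasDerivAt f (f1 r) r) (df1 : ∀ r, HasDerivAt f1 (f2 r) r)
    (fper : ∀ r, f (r + L) = f r) (nper : ∀ r ω, n (r + L) ω = n r ω) (r : ℝ) :
    s2 n f f1 f2 (r + L) = s2 n f f1 f2 r := by
  have e1 := shift_der df fper
  have e2 := shift_der df1 e1
  funext θ φ
  simp only [s2, rad, dv1, dv2, tf, pp, pq, Nf, Nr, B1, B2, A11, A22, A12, Br, shift_P,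
    shift_nu nper, shift_Dn nper, shift_D2n nper, fper, e1, e2]

theorem shift_vl (fper : ∀ r, f (r + L) = f r) (nper : ∀ r ω, n (r + L) ω = n r ω) (r : ℝ) :
    vl n f (r + L) = vl n f r := by
  funext θ φ
  simp only [vl, Nf, shift_P, shift_nu nper, fper]

theorem int_shift {W : ℝ → ℝ → ℝ → ℝ} (hW : ∀ r, W (r + L) = W r) (a : ℝ) :
    ∫ r in (0 : ℝ)..L, SI (W r) = ∫ r in a..(a + L), SI (W r) := by
  have h : Function.Periodic (fun r => SI (W r)) L := fun r => by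
    show SI (W (r + L)) = SI (W r)
    rw [hW]
  have := h.intervalIntegral_add_eq 0 a
  rwa [zero_add] at this

/-- The maximum principle on the product of the circle and the 2-sphere. -/
theorem abs_ppP (hL : 0 < L) (S : Setup (3 * L) f f1 f2 n)
    (fper : ∀ r, f (r + L) = f r) (nper : ∀ r ω, n (r + L) ω = n r ω)
    (hnp : ∀ r, ∀ ω : E3, ‖ω‖ = 1 → 0 < n r ω)
    (hR : ∀ r, ∀ θ ∈ Ioo 0 π, ∀ φ, 0 ≤ scalarCurv (metric f n) ![r, θ, φ]) :
    ∀ r θ φ, |pp n f1 r θ φ| ≤ 1 := by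
  have e1 := shift_der S.df fper
  obtain ⟨rs, hrs, ωs, hωs', hmax'⟩ := S.exists_maxP (a := L / 2) (b := L / 2 + L)
    (by linarith) (fun r _ => hnp r)
  have hmax : ∀ r, ∀ ω : E3, ‖ω‖ = 1 → (f1 r / n r ω) ^ 2 ≤ (f1 rs / n rs ωs) ^ 2 := by
    intro r ω hω
    have hper : Function.Periodic (fun r => (f1 r / n r ω) ^ 2) L := fun r => by
      show (f1 (r + L) / n (r + L) ω) ^ 2 = (f1 r / n r ω) ^ 2
      rw [e1, nper]
    obtain ⟨y, hy, hy2⟩ := hper.exists_mem_Ico hL r (L / 2)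
    have := hmax' y ⟨hy.1, hy.2.le⟩ ω hω
    exact (show (f1 r / n r ω) ^ 2 = (f1 y / n y ω) ^ 2 from hy2) ▸ this
  have hle := S.max_le (fun r _ => hnp r) (fun r _ => hR r)
    (rs := rs) (ωs := ωs) ⟨by linarith [hrs.1], by linarith [hrs.2]⟩ hωs'
    (Filter.Eventually.of_forall fun t => hmax t ωs hωs') (hmax rs)
  intro r θ φ
  have h2 := (hmax r _ (norm_sph θ φ)).trans hle
  exact abs_le_one_iff_mul_self_le_one.mpr (by simpa [pp, Nf, nu, P, sq] using h2)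

theorem finalP (hL : 0 < L) (S : Setup (3 * L) f f1 f2 n)
    (fper : ∀ r, f (r + L) = f r) (nper : ∀ r ω, n (r + L) ω = n r ω)
    (fpos : ∀ r, 0 < f r)
    (hnp : ∀ r, ∀ ω : E3, ‖ω‖ = 1 → 0 < n r ω)
    (hR : ∀ r, ∀ θ ∈ Ioo 0 π, ∀ φ, 0 ≤ scalarCurv (metric f n) ![r, θ, φ]) :
    (∫ r in (0 : ℝ)..L, SI (vl n f r)) ^ (1 / 3 : ℝ) * (∫ r in (0 : ℝ)..L, SI (s2 n f f1 f2 r))
      ≤ 3 / 4 * (2 * π ^ 2) ^ (4 / 3 : ℝ) ∧
    (∫ r in (0 : ℝ)..L, SI (s1 n f f1 f2 r)) * (∫ r in (0 : ℝ)..L, SI (s2 n f f1 f2 r))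
      ≤ 9 / 2 * π ^ 4 := by
  have e1 := shift_der S.df fper
  have hper : Function.Periodic f L := fper
  obtain ⟨r1, hr1, hmin'⟩ := isCompact_Icc.exists_isMinOn
    (nonempty_Icc.mpr (show L / 2 ≤ L / 2 + L by linarith)) (S.cf.continuousOn)
  have hmin : ∀ r, f r1 ≤ f r := by
    intro r
    obtain ⟨y, hy, hy2⟩ := hper.exists_mem_Ico hL r (L / 2)
    rw [hy2]
    exact hmin' ⟨hy.1, hy.2.le⟩
  obtain ⟨r0, hr0, hmax'⟩ := isCompact_Icc.exists_isMaxOn
    (nonempty_Icc.mpr (show r1 ≤ r1 + L by linarith)) (S.cf.continuousOn)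
  have hmax : ∀ r, f r ≤ f r0 := by
    intro r
    obtain ⟨y, hy, hy2⟩ := hper.exists_mem_Ico hL r r1
    rw [hy2]
    exact hmax' ⟨hy.1, hy.2.le⟩
  have hf1 : f1 r1 = 0 :=
    IsLocalMin.hasDerivAt_eq_zero (Filter.Eventually.of_forall hmin) (S.df r1)
  have hf0 : f1 r0 = 0 :=
    IsLocalMax.hasDerivAt_eq_zero (Filter.Eventually.of_forall hmax) (S.df r0)
  have i1 : r1 ∈ Ioo 0 (3 * L) := ⟨by linarith [hr1.1], by linarith [hr1.2]⟩
  have i2 : r1 + L ∈ Ioo 0 (3 * L) := ⟨by linarith [hr1.1], by linarith [hr1.2]⟩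
  have hp := abs_ppP hL S fper nper hnp hR
  rw [int_shift (shift_vl fper nper) r1,
    int_shift (shift_s2 S.df S.df1 fper nper) r1,
    int_shift (shift_s1 S.df S.df1 fper nper) r1]
  exact S.finalM (fun r _ => hp r) (fun r hr => S.s1_nonneg (fun r _ => hR r) hr) (fpos r0)
    (fun c hc W hW H => S.masterP (fpos r0) rfl hf0 i1 i2 hr0.1 hr0.2 hf1 (by rw [e1, hf1])
      c hc W hW H) (fun r _ => hmax r) (by linarith) i1.1.le i2.2.le

end Setup

end

end Pool.Agent.Lib_helper94.QS
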