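import Pool.Agent.Lib_helper94.QS.Periodic

/-!
# The theorem
-/

set_option autoImplicit false

namespace Pool.Agent.Lib_helper94.QS

open Real MeasureTheory intervalIntegral Set Filter Topology

noncomputable section

variable {L : ℝ} {f : ℝ → ℝ} {n : ℝ → E3 → ℝ}

theorem der1 (hf : ContDiff ℝ 2 f) (r : ℝ) : HasDerivAt f (deriv f r) r :=
  (hf.differentiable (by norm_num) r).hasDerivAt

theorem cd1 (hf : ContDiff ℝ 2 f) : ContDiff ℝ 1 (deriv f) := by
  have : ContDiff ℝ (1 + 1) f := by simpa [one_add_one_eq_two] using hf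
  exact (contDiff_succ_iff_deriv.mp this).2.2

theorem der2 (hf : ContDiff ℝ 2 f) (r : ℝ) : HasDerivAt (deriv f) (deriv (deriv f) r) r :=
  ((cd1 hf).differentiable (by norm_num) r).hasDerivAt

theorem cont2 (hf : ContDiff ℝ 2 f) : Continuous (deriv (deriv f)) :=
  (cd1 hf).continuous_deriv (by norm_num)

theorem top_sphere (hL : 0 < L) (hf : ContDiff ℝ 2 f)
    (hn : ContDiff ℝ 2 fun q : ℝ × E3 => n q.1 q.2) (H : OnSphere L f n) :
    total (metric f n) L (fun _ => 1) ^ (1 / 3 : ℝ) * total (metric f n) L (sigmaTwo (metric f n))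
      ≤ 3 / 4 * (2 * π ^ 2) ^ (4 / 3 : ℝ) ∧
    total (metric f n) L (sigmaOne (metric f n)) * total (metric f n) L (sigmaTwo (metric f n))
      ≤ 9 / 2 * π ^ 4 := by
  have S : Setup L f (deriv f) (deriv (deriv f)) n :=
    ⟨hL, hn, der1 hf, der2 hf, cont2 hf, H.f_pos, fun r hr θ φ => H.n_pos r hr _ (norm_sph θ φ)⟩
  rw [Setup.total_congr hL fun r hr θ hθ φ => S.int0 hr hθ φ,
    Setup.total_congr hL fun r hr θ hθ φ => S.int1 hr hθ φ,
    Setup.total_congr hL fun r hr θ hθ φ => S.int2 hr hθ φ]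
  exact S.final (S.abs_pp H.n_pos H.n_zero H.n_L H.scalar) H.f_zero H.f_L
    fun r hr => S.s1_nonneg H.scalar hr

theorem top_product (hL : 0 < L) (hf : ContDiff ℝ 2 f)
    (hn : ContDiff ℝ 2 fun q : ℝ × E3 => n q.1 q.2) (H : OnProduct L f n) :
    total (metric f n) L (fun _ => 1) ^ (1 / 3 : ℝ) * total (metric f n) L (sigmaTwo (metric f n))
      ≤ 3 / 4 * (2 * π ^ 2) ^ (4 / 3 : ℝ) ∧
    total (metric f n) L (sigmaOne (metric f n)) * total (metric f n) L (sigmaTwo (metric f n))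
      ≤ 9 / 2 * π ^ 4 := by
  have S : Setup (3 * L) f (deriv f) (deriv (deriv f)) n :=
    ⟨by positivity, hn, der1 hf, der2 hf, cont2 hf, fun r _ => H.f_pos r,
      fun r _ θ φ => H.n_pos r _ (norm_sph θ φ)⟩
  have hsub : ∀ r ∈ Ioo 0 L, r ∈ Ioo 0 (3 * L) := fun r hr => ⟨hr.1, by linarith [hr.2]⟩
  rw [Setup.total_congr hL fun r hr θ hθ φ => S.int0 (hsub r hr) hθ φ,
    Setup.total_congr hL fun r hr θ hθ φ => S.int1 (hsub r hr) hθ φ,
    Setup.total_congr hL fun r hr θ hθ φ => S.int2 (hsub r hr) hθ φ]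
  exact S.finalP hL H.f_per H.n_per H.f_pos H.n_pos H.scalar

end

end Pool.Agent.Lib_helper94.QS
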